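import Mathlib
import Pool.Agent.Hhelper43.Cube.Lower

set_option autoImplicit false

namespace Pool.Agent.C14P

open Finset
open Pool.Agent.Hhelper43.Cube

/-! ### Lists of colours -/

lemma changes_cons_le (a b : Bool) (l : List Bool) :
    changes (a :: l) ≤ (if a = b then 0 else 1) + changes (b :: l) := by
  cases l with
  | nil => simp [changes]
  | cons x l =>
    rw [changes, changes]
    cases a <;> cases b <;> cases x <;> simp <;> omega

lemma changes_le_cons (b : Bool) (l : List Bool) : changes l ≤ changes (b :: l) := by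
  cases l with
  | nil => simp [changes]
  | cons x l => rw [changes]; omega

lemma changes_sublist_aux {l₁ l₂ : List Bool} (h : l₁.Sublist l₂) :
    changes l₁ ≤ changes l₂ ∧ ∀ a, changes (a :: l₁) ≤ changes (a :: l₂) := by
  induction h with
  | slnil => exact ⟨le_refl _, fun a => le_refl _⟩
  | cons b h ih =>
    refine ⟨ih.1.trans (changes_le_cons _ _), fun a => ?_⟩
    refine (changes_cons_le a b _).trans ?_
    rw [changes]
    exact Nat.add_le_add_left (ih.2 b) _
  | cons_cons b h ih =>
    refine ⟨ih.2 b, fun a => ?_⟩
    rw [changes, changes]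
    exact Nat.add_le_add_left (ih.2 b) _

lemma changes_sublist {l₁ l₂ : List Bool} (h : l₁.Sublist l₂) : changes l₁ ≤ changes l₂ :=
  (changes_sublist_aux h).1

lemma changes_append (a b : List Bool) : changes (a ++ b) ≤ changes a + changes b + 1 := by
  induction a with
  | nil => simp only [List.nil_append]; omega
  | cons x a ih =>
    cases a with
    | nil =>
      cases b with
      | nil => simp [changes]
      | cons y b =>
        simp only [List.cons_append, List.nil_append, changes]
        split_ifs <;> omega
    | cons z a =>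
      simp only [List.cons_append, changes] at ih ⊢
      omega

/-- The number of monochromatic segments of a list of colours. -/
def seg (l : List Bool) : ℕ := if l = [] then 0 else changes l + 1

lemma seg_nil : seg [] = 0 := rfl

lemma seg_cons (a : Bool) (l : List Bool) : seg (a :: l) = changes (a :: l) + 1 := rfl

lemma changes_le_seg (l : List Bool) : changes l ≤ seg l := by
  unfold seg
  split_ifs with h
  · subst h; simp [changes]
  · omega

lemma seg_append (a b : List Bool) : seg (a ++ b) ≤ seg a + seg b := by
  unfold seg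
  by_cases ha : a = []
  · subst ha; simp
  · by_cases hb : b = []
    · subst hb; simp
    · rw [if_neg (by simp [ha]), if_neg ha, if_neg hb]
      have := changes_append a b
      omega

lemma seg_cons_le (a : Bool) (l : List Bool) : seg (a :: l) ≤ 1 + seg l := by
  have := seg_append [a] l
  have h1 : seg [a] = 1 := by simp [seg, changes]
  rw [h1] at this
  exact this

lemma changes_replicate (k : ℕ) (a : Bool) : changes (List.replicate k a) = 0 := by
  induction k with
  | zero => rfl
  | succ k ih =>
    cases k with
    | zero => rfl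
    | succ k =>
      rw [List.replicate_succ, List.replicate_succ, changes, ← List.replicate_succ, ih]
      simp

lemma seg_replicate (k : ℕ) (a : Bool) : seg (List.replicate k a) ≤ 1 := by
  unfold seg
  split_ifs
  · omega
  · rw [changes_replicate]

/-! ### Walks in the cube -/

lemma exists_walk' {n : ℕ} (χ : Sym2 (V n) → Bool) (l : List (Fin n)) (w z : V n)
    (hz : endp w l = z) :
    ∃ p : (Q n).Walk w z, p.edges.map χ = cols χ w l := by
  induction l generalizing w with
  | nil =>
    have hz' : w = z := hz
    subst hz'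
    exact ⟨SimpleGraph.Walk.nil, by simp [cols]⟩
  | cons d l ih =>
    obtain ⟨p, hc⟩ := ih (flip w d) hz
    exact ⟨SimpleGraph.Walk.cons (adj_flip w d) p, by
      rw [SimpleGraph.Walk.edges_cons, List.map_cons, hc]; rfl⟩

/-- `z` can be reached from `u` with at most `k` monochromatic segments. -/
def RQ {n : ℕ} (χ : Sym2 (V n) → Bool) (k : ℕ) (u z : V n) : Prop :=
  ∃ l : List (Fin n), endp u l = z ∧ seg (cols χ u l) ≤ k

lemma cols_append {n : ℕ} (χ : Sym2 (V n) → Bool) (a b : List (Fin n)) (u : V n) :
    cols χ u (a ++ b) = cols χ u a ++ cols χ (endp u a) b := by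
  induction a generalizing u with
  | nil => rfl
  | cons d a ih => simp only [List.cons_append, cols, endp, ih]

lemma endp_append {n : ℕ} (a b : List (Fin n)) (u : V n) :
    endp u (a ++ b) = endp (endp u a) b := by
  induction a generalizing u with
  | nil => rfl
  | cons d a ih => simp only [List.cons_append, endp, ih]

lemma RQ.trans {n : ℕ} {χ : Sym2 (V n) → Bool} {k j : ℕ} {u z w : V n} (h : RQ χ k u z)
    (h' : RQ χ j z w) : RQ χ (k + j) u w := by
  obtain ⟨a, ha, hka⟩ := h
  obtain ⟨b, hb, hjb⟩ := h'
  subst ha
  refine ⟨a ++ b, by rw [endp_append, hb], ?_⟩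
  rw [cols_append]
  exact (seg_append _ _).trans (add_le_add hka hjb)

lemma RQ.mono {n : ℕ} {χ : Sym2 (V n) → Bool} {k j : ℕ} {u z : V n} (h : RQ χ k u z)
    (hkj : k ≤ j) : RQ χ j u z := by
  obtain ⟨a, ha, hka⟩ := h
  exact ⟨a, ha, hka.trans hkj⟩

lemma RQ.refl {n : ℕ} (χ : Sym2 (V n) → Bool) (u : V n) : RQ χ 0 u u :=
  ⟨[], rfl, le_refl _⟩

lemma m_le_of_RQ {n : ℕ} {χ : Sym2 (V n) → Bool} {k : ℕ} {v : V n} (h : RQ χ k v (anti v)) :
    m χ v ≤ k := by
  obtain ⟨l, hl, hk⟩ := h
  obtain ⟨p, hp⟩ := exists_walk' χ l v (anti v) hl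
  have h1 : m χ v ≤ changes (p.bypass.edges.map χ) :=
    Nat.sInf_le ⟨p.bypass, p.bypass_isPath, rfl⟩
  have h2 : changes (p.bypass.edges.map χ) ≤ changes (p.edges.map χ) :=
    changes_sublist (p.edges_bypass_sublist_edges.map χ)
  rw [hp] at h2
  exact h1.trans (h2.trans ((changes_le_seg _).trans hk))

end Pool.Agent.C14P
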