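import Mathlib

set_option autoImplicit false
set_option linter.unusedSectionVars false

namespace Pool.Agent.C14P

open Finset

variable {S : Type*} [Fintype S] [DecidableEq S]

/-- The period of the cycle `(φ, a)`. -/
noncomputable def per (C : (S → S) × S) : ℕ := Function.minimalPeriod C.1 C.2

/-- The number of traversals of `(x, x')` in one lap of the cycle `(φ, a)`. -/
noncomputable def lap (C : (S → S) × S) (x x' : S) : ℕ :=
  ∑ i ∈ range (per C), if C.1^[i] C.2 = x ∧ C.1^[i + 1] C.2 = x' then 1 else 0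

lemma iterate_per (C : (S → S) × S) : C.1^[per C] C.2 = C.2 :=
  Function.isPeriodicPt_minimalPeriod C.1 C.2

lemma sum_range_shift (p : ℕ) (g : ℕ → ℕ) (h : g p = g 0) :
    ∑ i ∈ range p, g (i + 1) = ∑ i ∈ range p, g i := by
  have h1 := Finset.sum_range_succ g p
  have h2 := Finset.sum_range_succ' g p
  omega

lemma per_le (C : (S → S) × S) : per C ≤ Fintype.card S := by
  have h : Set.InjOn (fun i => C.1^[i] C.2) (range (per C) : Set ℕ) := by
    intro i hi j hj hij
    rw [Finset.coe_range, Set.mem_Iio] at hi hj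
    exact Function.iterate_injOn_Iio_minimalPeriod hi hj hij
  have := Finset.card_le_card_of_injOn (s := range (per C)) (t := (univ : Finset S))
    (fun i => C.1^[i] C.2) (fun i _ => Finset.mem_univ _) h
  rwa [Finset.card_range] at this

lemma lap_out (C : (S → S) × S) (x : S) :
    ∑ x', lap C x x' = ∑ i ∈ range (per C), if C.1^[i] C.2 = x then 1 else 0 := by
  unfold lap
  rw [Finset.sum_comm]
  refine Finset.sum_congr rfl fun i _ => ?_
  by_cases h : C.1^[i] C.2 = x
  · simp [h]
  · simp [h]

lemma lap_in (C : (S → S) × S) (x : S) :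
    ∑ x', lap C x' x = ∑ i ∈ range (per C), if C.1^[i] C.2 = x then 1 else 0 := by
  have h1 : ∑ x', lap C x' x = ∑ i ∈ range (per C), if C.1^[i + 1] C.2 = x then 1 else 0 := by
    unfold lap
    rw [Finset.sum_comm]
    refine Finset.sum_congr rfl fun i _ => ?_
    by_cases h : C.1^[i + 1] C.2 = x
    · simp only [h, and_true, Finset.sum_ite_eq, Finset.mem_univ, if_true]
    · simp only [h, and_false, if_false, Finset.sum_const_zero]
  rw [h1]
  refine sum_range_shift (per C) (fun i => if C.1^[i] C.2 = x then 1 else 0) ?_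
  simp only [iterate_per, Function.iterate_zero, id]
  try rfl

lemma lap_le_one (C : (S → S) × S) (x x' : S) : lap C x x' ≤ 1 := by
  unfold lap
  rw [← Finset.card_filter, Finset.card_le_one]
  intro i hi j hj
  rw [Finset.mem_filter, Finset.mem_range] at hi hj
  exact Function.iterate_injOn_Iio_minimalPeriod (f := C.1) (x := C.2) hi.1 hj.1
    (hi.2.1.trans hj.2.1.symm)

lemma lap_pos {C : (S → S) × S} {x x' : S} (h : 0 < lap C x x') :
    ∃ i, i < per C ∧ C.1^[i] C.2 = x ∧ C.1^[i + 1] C.2 = x' := by
  unfold lap at h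
  rw [← Finset.card_filter, Finset.card_pos] at h
  obtain ⟨i, hi⟩ := h
  rw [Finset.mem_filter, Finset.mem_range] at hi
  exact ⟨i, hi.1, hi.2⟩

lemma lap_pos' (C : (S → S) × S) {i : ℕ} (hi : i < per C) :
    0 < lap C (C.1^[i] C.2) (C.1^[i + 1] C.2) := by
  unfold lap
  rw [← Finset.card_filter, Finset.card_pos]
  exact ⟨i, Finset.mem_filter.mpr ⟨Finset.mem_range.mpr hi, rfl, rfl⟩⟩

/-- A nonzero circulation contains a cycle. -/
lemma exists_cycle (f : S → S → ℕ) (hf : ∀ x, ∑ x', f x x' = ∑ x', f x' x)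
    (h0 : ∑ x, ∑ x', f x x' ≠ 0) :
    ∃ C : (S → S) × S, 0 < per C ∧ ∀ x x', lap C x x' ≤ f x x' := by
  classical
  obtain ⟨x0, -, hx0⟩ := Finset.exists_ne_zero_of_sum_ne_zero h0
  obtain ⟨x1, -, hx1⟩ := Finset.exists_ne_zero_of_sum_ne_zero hx0
  let φ : S → S := fun x => if h : ∃ x', f x x' ≠ 0 then h.choose else x
  have hφ : ∀ x, (∃ x', f x x' ≠ 0) → f x (φ x) ≠ 0 := by
    intro x h
    simp only [φ, dif_pos h]
    exact h.choose_spec
  have hstep : ∀ x, (∃ x', f x x' ≠ 0) → ∃ x', f (φ x) x' ≠ 0 := by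
    intro x h
    have h1 := hφ x h
    have h2 : ∑ x', f x' (φ x) ≠ 0 := by
      intro h3
      exact h1 (Finset.sum_eq_zero_iff.mp h3 x (Finset.mem_univ x))
    rw [← hf] at h2
    obtain ⟨x', -, hx'⟩ := Finset.exists_ne_zero_of_sum_ne_zero h2
    exact ⟨x', hx'⟩
  have hit : ∀ i, ∃ x', f (φ^[i] x0) x' ≠ 0 := by
    intro i
    induction i with
    | zero => exact ⟨x1, hx1⟩
    | succ i ih =>
      rw [Function.iterate_succ_apply']
      exact hstep _ ih
  obtain ⟨i, j, hij, he⟩ := Finite.exists_ne_map_eq_of_infinite (fun i : ℕ => φ^[i] x0)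
  have key : ∀ i j : ℕ, i < j → φ^[i] x0 = φ^[j] x0 →
      ∃ C : (S → S) × S, 0 < per C ∧ ∀ x x', lap C x x' ≤ f x x' := by
    intro i j hlt he
    refine ⟨(φ, φ^[i] x0), ?_, ?_⟩
    · refine Function.IsPeriodicPt.minimalPeriod_pos (n := j - i) (by omega) ?_
      change φ^[j - i] (φ^[i] x0) = φ^[i] x0
      rw [← Function.iterate_add_apply, Nat.sub_add_cancel hlt.le, he]
    · intro x x'
      rcases Nat.eq_zero_or_pos (lap (φ, φ^[i] x0) x x') with h | h
      · omega
      · obtain ⟨k, -, hk1, hk2⟩ := lap_pos h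
        have h1 := lap_le_one (φ, φ^[i] x0) x x'
        have h2 : f x x' ≠ 0 := by
          rw [← hk1, ← hk2]
          change f (φ^[k] (φ^[i] x0)) (φ^[k + 1] (φ^[i] x0)) ≠ 0
          rw [Function.iterate_succ_apply', ← Function.iterate_add_apply]
          exact hφ _ (hit _)
        omega
  rcases lt_or_gt_of_ne hij with h | h
  · exact key i j h he
  · exact key j i h he.symm

/-- Every integer circulation is a sum of simple cycles. -/
theorem decomp (f : S → S → ℕ) (hf : ∀ x, ∑ x', f x x' = ∑ x', f x' x) :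
    ∃ n : (S → S) × S → ℕ, ∀ x x', f x x' = ∑ C, n C * lap C x x' := by
  classical
  generalize hN : ∑ x, ∑ x', f x x' = N
  induction N using Nat.strong_induction_on generalizing f with
  | _ N ih =>
    rcases Nat.eq_zero_or_pos N with h0 | h0
    · refine ⟨fun _ => 0, fun x x' => ?_⟩
      subst h0
      rw [Finset.sum_eq_zero_iff] at hN
      have h1 := hN x (Finset.mem_univ x)
      rw [Finset.sum_eq_zero_iff] at h1
      simp [h1 x' (Finset.mem_univ x')]
    · obtain ⟨C, hC, hle⟩ := exists_cycle f hf (by omega)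
      have hsplit : ∀ x x', (f x x' - lap C x x') + lap C x x' = f x x' := fun x x' =>
        Nat.sub_add_cancel (hle x x')
      have hf' : ∀ x, ∑ x', (f x x' - lap C x x') = ∑ x', (f x' x - lap C x' x) := by
        intro x
        have h1 : ∑ x', (f x x' - lap C x x') + ∑ x', lap C x x' = ∑ x', f x x' := by
          rw [← Finset.sum_add_distrib]
          exact Finset.sum_congr rfl fun x' _ => hsplit x x'
        have h2 : ∑ x', (f x' x - lap C x' x) + ∑ x', lap C x' x = ∑ x', f x' x := by
          rw [← Finset.sum_add_distrib]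
          exact Finset.sum_congr rfl fun x' _ => hsplit x' x
        rw [lap_out] at h1
        rw [lap_in] at h2
        have h3 := hf x
        omega
      have hlt : ∑ x, ∑ x', (f x x' - lap C x x') < N := by
        rw [← hN]
        refine Finset.sum_lt_sum (fun x _ => Finset.sum_le_sum fun x' _ => Nat.sub_le _ _)
          ⟨C.2, Finset.mem_univ _, ?_⟩
        refine Finset.sum_lt_sum (fun x' _ => Nat.sub_le _ _) ⟨C.1 C.2, Finset.mem_univ _, ?_⟩
        have h1 := lap_pos' C hC
        have h2 := hle C.2 (C.1 C.2)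
        simp only [Function.iterate_zero, id, zero_add, Function.iterate_one] at h1
        omega
      obtain ⟨n, hn⟩ := ih _ hlt (fun x x' => f x x' - lap C x x') hf' rfl
      refine ⟨fun D => n D + if D = C then 1 else 0, fun x x' => ?_⟩
      have h1 : ∑ D, (n D + if D = C then 1 else 0) * lap D x x'
          = ∑ D, n D * lap D x x' + lap C x x' := by
        simp only [add_mul, Finset.sum_add_distrib]
        congr 1
        simp
      rw [h1, ← hn x x']
      exact (hsplit x x').symm

end Pool.Agent.C14P
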