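import Mathlib
import Pool.Agent.C14P.Circ

set_option autoImplicit false
set_option linter.unusedSectionVars false

namespace Pool.Agent.C14P

open Finset

lemma sum_ind {ι A B : Type*} (I : Finset ι) [Fintype A] [Fintype B] [DecidableEq A]
    [DecidableEq B] (u : ι → A) (w : ι → B) (F : A → B → ℕ) :
    ∑ a, ∑ b, (∑ i ∈ I, if u i = a ∧ w i = b then 1 else 0) * F a b = ∑ i ∈ I, F (u i) (w i) := by
  have h1 : ∀ a b, (∑ i ∈ I, if u i = a ∧ w i = b then 1 else 0) * F a b
      = ∑ i ∈ I, (if u i = a ∧ w i = b then 1 else 0) * F a b := fun a b => Finset.sum_mul _ _ _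
  simp_rw [h1]
  have h2 : ∀ a, ∑ b, ∑ i ∈ I, (if u i = a ∧ w i = b then 1 else 0) * F a b
      = ∑ i ∈ I, ∑ b, (if u i = a ∧ w i = b then 1 else 0) * F a b := fun a => Finset.sum_comm
  simp_rw [h2]
  rw [Finset.sum_comm]
  refine Finset.sum_congr rfl fun i _ => ?_
  rw [Finset.sum_eq_single (u i)]
  · rw [Finset.sum_eq_single (w i)]
    · simp
    · intro b _ hb
      rw [if_neg (fun h => hb h.2.symm)]
      simp
    · intro h; exact absurd (Finset.mem_univ _) h
  · intro a _ ha
    refine Finset.sum_eq_zero fun b _ => ?_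
    rw [if_neg (fun h => ha h.1.symm)]
    simp
  · intro h; exact absurd (Finset.mem_univ _) h

lemma perm_exists {T : Type*} [Fintype T] [DecidableEq T] (P R : Finset T) (h : #P ≤ #R) :
    ∃ π : Equiv.Perm T, ∀ x ∈ P, π x ∈ R := by
  obtain ⟨R', hR', hc⟩ := Finset.exists_subset_card_eq h
  let e : {x // x ∈ P} ≃ {x // x ∈ R'} := Finset.equivOfCardEq hc.symm
  exact ⟨e.extendSubtype, fun x hx => hR' (e.extendSubtype_mem x hx)⟩

lemma mism_aux {T : Type*} [Fintype T] [DecidableEq T] (a b : T → Bool)
    (h : #{x | a x = true} ≤ #{x | b x = true}) :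
    ∃ π : Equiv.Perm T, (∑ x, if a x = b (π x) then 0 else 1) + #{x | a x = true}
      = #{x | b x = true} := by
  obtain ⟨π, hπ⟩ := perm_exists _ _ h
  refine ⟨π, ?_⟩
  have h1 : #{x | b x = true} = ∑ x, if b (π x) = true then 1 else 0 := by
    rw [Finset.card_filter]
    exact (Equiv.sum_comp π (fun x => if b x = true then 1 else 0)).symm
  rw [h1, Finset.card_filter, ← Finset.sum_add_distrib]
  refine Finset.sum_congr rfl fun x _ => ?_
  have h2 := hπ x
  simp only [Finset.mem_filter, Finset.mem_univ, true_and] at h2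
  cases ha : a x <;> cases hb : b (π x) <;> simp_all

lemma mism {T : Type*} [Fintype T] [DecidableEq T] (a b : T → Bool) :
    ∃ π : Equiv.Perm T, ((∑ x, if a x = b (π x) then 0 else 1 : ℕ) : ℤ)
      ≤ |∑ x, ((if a x = true then 1 else 0) - (if b x = true then 1 else 0) : ℤ)| := by
  have e1 : ∑ x, ((if a x = true then 1 else 0) - (if b x = true then 1 else 0) : ℤ)
      = (#{x | a x = true} : ℤ) - #{x | b x = true} := by
    rw [Finset.sum_sub_distrib, Finset.card_filter, Finset.card_filter]
    push_cast
    rfl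
  rw [e1]
  rcases le_total (#{x | a x = true}) (#{x | b x = true}) with h | h
  · obtain ⟨π, hπ⟩ := mism_aux a b h
    refine ⟨π, ?_⟩
    rw [abs_of_nonpos (by omega)]
    omega
  · have h3 : ∀ c : T → Bool, #{x | (!c x) = true} + #{x | c x = true} = Fintype.card T := by
      intro c
      rw [Finset.card_filter, Finset.card_filter, ← Finset.sum_add_distrib,
        ← Finset.card_univ, Finset.card_eq_sum_ones]
      refine Finset.sum_congr rfl fun x _ => ?_
      cases c x <;> simp
    have ha := h3 a
    have hb := h3 b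
    obtain ⟨π, hπ⟩ := mism_aux (fun x => !a x) (fun x => !b x) (by omega)
    refine ⟨π, ?_⟩
    have e2 : (∑ x, if a x = b (π x) then 0 else 1)
        = ∑ x, if (!a x) = (!b (π x)) then 0 else 1 := by
      refine Finset.sum_congr rfl fun x _ => ?_
      cases a x <;> cases b (π x) <;> simp
    rw [e2, abs_of_nonneg (by omega)]
    omega

/-- Optimal coupling of two colourings of a weighted set with itself. -/
lemma transport {m : ℕ} (N : Fin m → ℕ) (a b : Fin m → Bool) :
    ∃ g : Fin m → Fin m → ℕ, (∀ s, ∑ s', g s s' = N s) ∧ (∀ s', ∑ s, g s s' = N s') ∧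
      ((∑ s, ∑ s', g s s' * (if a s = b s' then 0 else 1) : ℕ) : ℤ)
        ≤ |∑ s, (N s : ℤ) * ((if a s = true then 1 else 0) - (if b s = true then 1 else 0))| := by
  classical
  obtain ⟨π, hπ⟩ := mism (T := Σ s : Fin m, Fin (N s)) (fun x => a x.1) (fun x => b x.1)
  have hsum : ∀ F : Fin m → ℕ, ∑ x : (Σ s : Fin m, Fin (N s)), F x.1 = ∑ s, N s * F s := by
    intro F
    rw [Fintype.sum_sigma]
    refine Finset.sum_congr rfl fun s _ => ?_
    simp
  have hsumZ : ∀ F : Fin m → ℤ, ∑ x : (Σ s : Fin m, Fin (N s)), F x.1 = ∑ s, (N s : ℤ) * F s := by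
    intro F
    rw [Fintype.sum_sigma]
    refine Finset.sum_congr rfl fun s _ => ?_
    simp
  refine ⟨fun s s' => ∑ x : (Σ s : Fin m, Fin (N s)), if x.1 = s ∧ (π x).1 = s' then 1 else 0,
    ?_, ?_, ?_⟩
  · intro s
    rw [Finset.sum_comm]
    have h1 : ∀ x : (Σ s : Fin m, Fin (N s)), ∑ s', (if x.1 = s ∧ (π x).1 = s' then 1 else 0)
        = if x.1 = s then 1 else 0 := by
      intro x
      by_cases h : x.1 = s
      · simp [h]
      · simp [h]
    simp_rw [h1]
    rw [hsum (fun t => if t = s then 1 else 0)]
    simp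
  · intro s'
    rw [Finset.sum_comm]
    have h1 : ∀ x : (Σ s : Fin m, Fin (N s)), ∑ s, (if x.1 = s ∧ (π x).1 = s' then 1 else 0)
        = if (π x).1 = s' then 1 else 0 := by
      intro x
      by_cases h : (π x).1 = s'
      · simp [h]
      · simp [h]
    simp_rw [h1]
    rw [Equiv.sum_comp π (fun x => if x.1 = s' then 1 else 0),
      hsum (fun t => if t = s' then 1 else 0)]
    simp
  · rw [sum_ind Finset.univ (fun x : (Σ s : Fin m, Fin (N s)) => x.1) (fun x => (π x).1)
      (fun s s' => if a s = b s' then 0 else 1)]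
    refine hπ.trans (le_of_eq ?_)
    congr 1
    exact hsumZ (fun s => (if a s = true then 1 else 0) - (if b s = true then 1 else 0))

section core

variable {W : Type*} [Fintype W] [DecidableEq W] {m : ℕ}

/-- Cycles in the state graph. -/
abbrev Cyc (W : Type*) (m : ℕ) : Type _ := (W × Fin m → W × Fin m) × (W × Fin m)

/-- The `i`-th state of the cycle. -/
def stt (C : Cyc W m) (i : ℕ) : W × Fin m := C.1^[i] C.2

/-- The number of steps in direction `s` in one lap. -/
noncomputable def us (C : Cyc W m) (s : Fin m) : ℕ :=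
  ∑ i ∈ range (per C), if (stt C i).2 = s then 1 else 0

/-- The number of colour changes in one lap. -/
noncomputable def cst (col : W × Fin m → Bool) (C : Cyc W m) : ℕ :=
  ∑ i ∈ range (per C), if col (stt C i) = col (stt C (i + 1)) then 0 else 1

lemma us_le (C : Cyc W m) (s : Fin m) : us C s ≤ Fintype.card (W × Fin m) := by
  unfold us
  refine le_trans (Finset.sum_le_card_nsmul _ _ 1 fun i _ => ?_) ?_
  · split_ifs <;> omega
  · rw [Finset.card_range, smul_eq_mul, mul_one]
    exact per_le C

lemma sum_lap (C : Cyc W m) (F : W × Fin m → W × Fin m → ℕ) :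
    ∑ x, ∑ x', lap C x x' * F x x' = ∑ i ∈ range (per C), F (stt C i) (stt C (i + 1)) :=
  sum_ind (range (per C)) (stt C) (fun i => stt C (i + 1)) F

theorem core [Nonempty W] (e : Fin m → W ≃ W) (col : W × Fin m → Bool) (N : Fin m → ℕ) (B : ℕ) :
    ∃ k : Cyc W m → ℕ,
      (∀ C, 0 < k C → ∀ i, i < per C → (stt C (i + 1)).1 = e (stt C i).2 (stt C i).1) ∧
      (∀ s, ∑ C, k C * us C s = 0 ∨ ∑ C, k C * us C s + B ≤ N s) ∧
      (∀ s, N s ≤ ∑ C, k C * us C s
        + Fintype.card (Cyc W m) * ((B + 1) * Fintype.card (W × Fin m))) ∧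
      ((Fintype.card W * ∑ C, k C * cst col C : ℕ) : ℤ) ≤
        ∑ w, |∑ s, (N s : ℤ) * ((if col ((e s).symm w, s) = true then 1 else 0)
          - (if col (w, s) = true then 1 else 0))| := by
  have htr := fun w : W => transport N (fun s => col ((e s).symm w, s)) (fun s => col (w, s))
  choose g hg1 hg2 hg3 using htr
  let f : W × Fin m → W × Fin m → ℕ := fun x x' =>
    if x'.1 = e x.2 x.1 then g x'.1 x.2 x'.2 else 0
  have hout : ∀ x, ∑ x', f x x' = N x.2 := by
    intro x
    rw [Fintype.sum_prod_type]
    simp only [f]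
    rw [Finset.sum_eq_single (e x.2 x.1)]
    · simp [hg1]
    · intro w _ hw
      exact Finset.sum_eq_zero fun s _ => if_neg hw
    · intro h; exact absurd (Finset.mem_univ _) h
  have hin : ∀ x, ∑ x', f x' x = N x.2 := by
    intro x
    rw [Fintype.sum_prod_type_right]
    simp only [f]
    rw [← hg2 x.1 x.2]
    refine Finset.sum_congr rfl fun s _ => ?_
    rw [Finset.sum_eq_single ((e s).symm x.1)]
    · simp
    · intro w _ hw
      refine if_neg fun h => hw ?_
      rw [h]; simp
    · intro h; exact absurd (Finset.mem_univ _) h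
  obtain ⟨n, hn⟩ := decomp f (fun x => (hout x).trans (hin x).symm)
  have hF : ∀ F : W × Fin m → W × Fin m → ℕ,
      ∑ C, n C * (∑ i ∈ range (per C), F (stt C i) (stt C (i + 1))) = ∑ x, ∑ x', f x x' * F x x' := by
    intro F
    have h1 : ∀ C : Cyc W m, n C * (∑ i ∈ range (per C), F (stt C i) (stt C (i + 1)))
        = ∑ x, ∑ x', n C * lap C x x' * F x x' := by
      intro C
      rw [← sum_lap, Finset.mul_sum]
      refine Finset.sum_congr rfl fun x _ => ?_
      rw [Finset.mul_sum]
      exact Finset.sum_congr rfl fun x' _ => by ring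
    simp_rw [h1]
    rw [Finset.sum_comm]
    refine Finset.sum_congr rfl fun x _ => ?_
    rw [Finset.sum_comm]
    refine Finset.sum_congr rfl fun x' _ => ?_
    rw [hn x x', Finset.sum_mul]
  have hus : ∀ s, ∑ C, n C * us C s = Fintype.card W * N s := by
    intro s
    have h1 := hF (fun x _ => if x.2 = s then 1 else 0)
    unfold us
    rw [h1]
    have h2 : ∀ x : W × Fin m, ∑ x', f x x' * (if x.2 = s then 1 else 0)
        = if x.2 = s then N s else 0 := by
      intro x
      rw [← Finset.sum_mul, hout]
      split_ifs with h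
      · rw [h, mul_one]
      · rw [mul_zero]
    simp_rw [h2]
    rw [Fintype.sum_prod_type]
    simp
  have hcst : ((∑ C, n C * cst col C : ℕ) : ℤ) ≤
        ∑ w, |∑ s, (N s : ℤ) * ((if col ((e s).symm w, s) = true then 1 else 0)
          - (if col (w, s) = true then 1 else 0))| := by
    have h1 := hF (fun x x' => if col x = col x' then 0 else 1)
    unfold cst
    rw [h1]
    have h2 : ∑ x, ∑ x', f x x' * (if col x = col x' then 0 else 1)
        = ∑ w, ∑ s, ∑ s', g w s s' * (if col ((e s).symm w, s) = col (w, s') then 0 else 1) := by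
      rw [Finset.sum_comm, Fintype.sum_prod_type]
      refine Finset.sum_congr rfl fun w _ => ?_
      have h3 : ∀ s' : Fin m, ∑ x, f x (w, s') * (if col x = col (w, s') then 0 else 1)
          = ∑ s, g w s s' * (if col ((e s).symm w, s) = col (w, s') then 0 else 1) := by
        intro s'
        rw [Fintype.sum_prod_type_right]
        refine Finset.sum_congr rfl fun s _ => ?_
        simp only [f]
        rw [Finset.sum_eq_single ((e s).symm w)]
        · simp
        · intro w' _ hw
          rw [if_neg (fun h => hw (by rw [h]; simp)), zero_mul]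
        · intro h; exact absurd (Finset.mem_univ _) h
      simp_rw [h3]
      rw [Finset.sum_comm]
    rw [h2]
    push_cast
    refine Finset.sum_le_sum fun w _ => ?_
    have := hg3 w
    push_cast at this
    exact this
  have hQ : 0 < Fintype.card W := Fintype.card_pos
  refine ⟨fun C => n C / Fintype.card W - B, ?_, ?_, ?_, ?_⟩
  · intro C hC i hi
    beta_reduce at hC
    have h1 : 0 < n C := by
      by_contra h
      have : n C = 0 := by omega
      rw [this] at hC
      simp at hC
    have h2 : 0 < f (stt C i) (stt C (i + 1)) := by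
      rw [hn]
      refine lt_of_lt_of_le ?_ (Finset.single_le_sum
        (f := fun C' => n C' * lap C' (stt C i) (stt C (i + 1))) (fun _ _ => Nat.zero_le _)
        (Finset.mem_univ C))
      exact Nat.mul_pos h1 (lap_pos' C hi)
    by_contra h3
    simp only [f, if_neg h3] at h2
    omega
  · intro s
    beta_reduce
    rcases Nat.eq_zero_or_pos (∑ C : Cyc W m, (n C / Fintype.card W - B) * us C s) with h | h
    · left; exact h
    · right
      obtain ⟨C0, -, hC0⟩ := Finset.exists_ne_zero_of_sum_ne_zero h.ne'
      have hk0 : n C0 / Fintype.card W - B ≠ 0 := fun h => hC0 (by rw [h, zero_mul])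
      have hu0 : us C0 s ≠ 0 := fun h => hC0 (by rw [h, mul_zero])
      have h4 : ∑ C : Cyc W m, (n C / Fintype.card W - B) * us C s + B
          ≤ ∑ C : Cyc W m, (n C / Fintype.card W) * us C s := by
        have h6 : (n C0 / Fintype.card W - B) * us C0 s + B
            ≤ (n C0 / Fintype.card W) * us C0 s := by
          obtain ⟨r, hr⟩ : ∃ r, n C0 / Fintype.card W = r + B := ⟨n C0 / Fintype.card W - B, by omega⟩
          obtain ⟨t, ht⟩ : ∃ t, us C0 s = t + 1 := ⟨us C0 s - 1, by omega⟩
          rw [hr, ht, Nat.add_sub_cancel]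
          nlinarith [Nat.zero_le (B * t)]
        have h5 : ∑ C : Cyc W m, ((n C / Fintype.card W - B) * us C s + if C = C0 then B else 0)
            ≤ ∑ C : Cyc W m, (n C / Fintype.card W) * us C s := by
          refine Finset.sum_le_sum fun C _ => ?_
          split_ifs with hCC
          · rw [hCC]; exact h6
          · exact Nat.mul_le_mul_right _ (Nat.sub_le _ _)
        rw [Finset.sum_add_distrib, Finset.sum_ite_eq' Finset.univ C0 (fun _ => B),
          if_pos (Finset.mem_univ C0)] at h5
        exact h5
      have h7 : ∑ C : Cyc W m, (n C / Fintype.card W) * us C s ≤ N s := by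
        have h8 : Fintype.card W * ∑ C, (n C / Fintype.card W) * us C s
            ≤ Fintype.card W * N s := by
          rw [← hus s, Finset.mul_sum]
          refine Finset.sum_le_sum fun C _ => ?_
          rw [← mul_assoc]
          exact Nat.mul_le_mul_right _ (Nat.mul_div_le _ _)
        exact Nat.le_of_mul_le_mul_left h8 hQ
      omega
  · intro s
    have h1 : Fintype.card W * N s ≤ Fintype.card W *
        (∑ C, (n C / Fintype.card W - B) * us C s
        + Fintype.card (Cyc W m) * ((B + 1) * Fintype.card (W × Fin m))) := by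
      rw [← hus s]
      have h2 : Fintype.card (Cyc W m) * ((B + 1) * Fintype.card (W × Fin m))
          = ∑ _C : Cyc W m, (B + 1) * Fintype.card (W × Fin m) := by
        rw [Finset.sum_const, Finset.card_univ, smul_eq_mul]
      rw [h2, ← Finset.sum_add_distrib, Finset.mul_sum]
      refine Finset.sum_le_sum fun C _ => ?_
      have h3 : n C ≤ Fintype.card W * ((n C / Fintype.card W - B) + (B + 1)) := by
        have h4 := Nat.lt_mul_div_succ (n C) hQ
        refine h4.le.trans (Nat.mul_le_mul_left _ ?_)
        omega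
      have h5 := us_le C s
      calc n C * us C s ≤ (Fintype.card W * ((n C / Fintype.card W - B) + (B + 1))) * us C s :=
            Nat.mul_le_mul_right _ h3
        _ = Fintype.card W * ((n C / Fintype.card W - B) * us C s + (B + 1) * us C s) := by ring
        _ ≤ _ := Nat.mul_le_mul_left _ (Nat.add_le_add_left (Nat.mul_le_mul_left _ h5) _)
    exact Nat.le_of_mul_le_mul_left h1 hQ
  · refine le_trans ?_ hcst
    norm_cast
    rw [Finset.mul_sum]
    refine Finset.sum_le_sum fun C _ => ?_
    rw [← mul_assoc]
    refine Nat.mul_le_mul_right _ ?_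
    exact (Nat.mul_le_mul_left _ (Nat.sub_le _ _)).trans (Nat.mul_div_le _ _)

end core

end Pool.Agent.C14P
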