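import Mathlib
import Pool.Agent.Hhelper43.Cube.Defs

set_option autoImplicit false

namespace Pool.Agent.C14P

open Finset
open Pool.Agent.Hhelper43.Cube

/-- A colouring of `Q_n` is `(m, L)`-periodic if the directions can be divided into `m` blocks
(`t i` is the block of the direction `i`) such that the colour of the edge from `v` (with
`v i = 0`) in direction `i` depends only on the block of `i` and on the numbers modulo `L` of the
ones of `v` in the `m` blocks. -/
def Periodic (m L : ℕ) {n : ℕ} (χ : Sym2 (V n) → Bool) : Prop :=
  ∃ (t : Fin n → Fin m) (c : (Fin m → ZMod L) → Fin m → Bool),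
    ∀ (v : V n) (i : Fin n), v i = false →
      χ s(v, Function.update v i true)
        = c (fun s => ((#{j | t j = s ∧ v j = true} : ℕ) : ZMod L)) (t i)

end Pool.Agent.C14P
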