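import Mathlib
import Pool.Agent.C14P.Basic
import Pool.Agent.C14P.Core

set_option autoImplicit false
set_option linter.unusedSectionVars false

namespace Pool.Agent.C14P

open Finset

variable {m L : ℕ}

/-- The phases of a weight vector. -/
def ph (L : ℕ) (y : Fin m → ℕ) : Fin m → ZMod L := fun s => (y s : ZMod L)

/-- Walks in the box of weight vectors, with the list of colours. -/
inductive Lw (c : (Fin m → ZMod L) → Fin m → Bool) (N : Fin m → ℕ) :
    (Fin m → ℕ) → List Bool → (Fin m → ℕ) → Prop
  | nil (y : Fin m → ℕ) : Lw c N y [] y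
  | up (y z : Fin m → ℕ) (l : List Bool) (s : Fin m) : y s < N s →
      Lw c N (Function.update y s (y s + 1)) l z → Lw c N y (c (ph L y) s :: l) z
  | down (y z : Fin m → ℕ) (l : List Bool) (s : Fin m) : 0 < y s →
      Lw c N (Function.update y s (y s - 1)) l z →
      Lw c N y (c (ph L (Function.update y s (y s - 1))) s :: l) z

variable {c : (Fin m → ZMod L) → Fin m → Bool} {N : Fin m → ℕ}

lemma Lw.append {y z w : Fin m → ℕ} {a b : List Bool} (h : Lw c N y a z) (h' : Lw c N z b w) :
    Lw c N y (a ++ b) w := by
  induction h with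
  | nil y => exact h'
  | up y z l s hs _ ih => exact Lw.up _ _ _ _ hs (ih h')
  | down y z l s hs _ ih => exact Lw.down _ _ _ _ hs (ih h')

/-- `z` can be reached from `y` with at most `k` monochromatic segments. -/
def Rc (c : (Fin m → ZMod L) → Fin m → Bool) (N : Fin m → ℕ) (k : ℕ) (y z : Fin m → ℕ) : Prop :=
  ∃ l : List Bool, Lw c N y l z ∧ seg l ≤ k

lemma Rc.trans {k j : ℕ} {y z w : Fin m → ℕ} (h : Rc c N k y z) (h' : Rc c N j z w) :
    Rc c N (k + j) y w := by
  obtain ⟨a, ha, hka⟩ := h
  obtain ⟨b, hb, hjb⟩ := h'
  exact ⟨a ++ b, ha.append hb, (seg_append _ _).trans (add_le_add hka hjb)⟩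

lemma Rc.mono {k j : ℕ} {y z : Fin m → ℕ} (h : Rc c N k y z) (hkj : k ≤ j) : Rc c N j y z := by
  obtain ⟨a, ha, hka⟩ := h
  exact ⟨a, ha, hka.trans hkj⟩

/-- Distance of natural numbers. -/
def nd (a b : ℕ) : ℕ := (a - b) + (b - a)

lemma sum_update_add (F : Fin m → ℕ → ℕ) (y : Fin m → ℕ) (s : Fin m) (v : ℕ) :
    ∑ r, F r (Function.update y s v r) + F s (y s) = ∑ r, F r (y r) + F s v := by
  rw [← Finset.add_sum_erase _ _ (Finset.mem_univ s),
    ← Finset.add_sum_erase _ (fun r => F r (y r)) (Finset.mem_univ s)]
  have h1 : ∑ r ∈ univ.erase s, F r (Function.update y s v r) = ∑ r ∈ univ.erase s, F r (y r) := by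
    refine Finset.sum_congr rfl fun r hr => ?_
    rw [Function.update_of_ne (Finset.ne_of_mem_erase hr)]
  rw [h1, Function.update_self]
  ring

lemma travel (y z : Fin m → ℕ) (hz : ∀ s, z s ≤ N s) :
    Rc c N (∑ s, nd (y s) (z s)) y z := by
  generalize hD : ∑ s, nd (y s) (z s) = D
  induction D generalizing y with
  | zero =>
    have h1 : y = z := by
      funext s
      have := Finset.sum_eq_zero_iff.mp hD s (Finset.mem_univ s)
      unfold nd at this
      omega
    subst h1
    exact ⟨[], Lw.nil _, le_refl _⟩
  | succ D ih =>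
    have h0 : ∑ s, nd (y s) (z s) ≠ 0 := by omega
    obtain ⟨s, -, hs⟩ := Finset.exists_ne_zero_of_sum_ne_zero h0
    have hzs := hz s
    rcases lt_or_ge (y s) (z s) with h | h
    · have h1 := sum_update_add (fun r a => nd a (z r)) y s (y s + 1)
      have h2 : nd (y s) (z s) = nd (y s + 1) (z s) + 1 := by unfold nd; omega
      obtain ⟨l, hl, hk⟩ := ih (Function.update y s (y s + 1)) (by omega)
      exact ⟨_, Lw.up y z l s (by omega) hl, (seg_cons_le _ _).trans (by omega)⟩
    · have hlt : z s < y s := by
        unfold nd at hs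
        omega
      have h1 := sum_update_add (fun r a => nd a (z r)) y s (y s - 1)
      have h2 : nd (y s) (z s) = nd (y s - 1) (z s) + 1 := by unfold nd; omega
      obtain ⟨l, hl, hk⟩ := ih (Function.update y s (y s - 1)) (by omega)
      exact ⟨_, Lw.down y z l s (by omega) hl, (seg_cons_le _ _).trans (by omega)⟩

lemma phase_one (hL : 0 < L) (y n : ℕ) (hy : y ≤ n) (hn : 2 * L ≤ n) (r : ZMod L) :
    ∃ z ≤ n, (z : ZMod L) = r ∧ nd y z ≤ L := by
  have : NeZero L := ⟨hL.ne'⟩
  have hj : (r - y).val < L := ZMod.val_lt _
  have hcast : ((y + (r - y).val : ℕ) : ZMod L) = r := by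
    push_cast
    rw [ZMod.natCast_zmod_val]
    ring
  by_cases h : y + (r - y).val ≤ n
  · exact ⟨_, h, hcast, by unfold nd; omega⟩
  · refine ⟨y + (r - y).val - L, by omega, ?_, by unfold nd; omega⟩
    rw [Nat.cast_sub (by omega), hcast, ZMod.natCast_self, sub_zero]

lemma phase_target (hL : 0 < L) (y : Fin m → ℕ) (hy : ∀ s, y s ≤ N s) (w : Fin m → ZMod L) :
    ∃ z : Fin m → ℕ, (∀ s, z s ≤ N s) ∧ (∀ s, 2 * L ≤ N s → (z s : ZMod L) = w s) ∧
      (∀ s, ¬ 2 * L ≤ N s → z s = y s) ∧ ∀ s, nd (y s) (z s) ≤ L := by
  have key : ∀ s, ∃ z ≤ N s, (2 * L ≤ N s → (z : ZMod L) = w s) ∧ (¬ 2 * L ≤ N s → z = y s) ∧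
      nd (y s) z ≤ L := by
    intro s
    by_cases h : 2 * L ≤ N s
    · obtain ⟨z, h1, h2, h3⟩ := phase_one hL (y s) (N s) (hy s) h (w s)
      exact ⟨z, h1, fun _ => h2, fun h' => absurd h h', h3⟩
    · exact ⟨y s, hy s, fun h' => absurd h' h, fun _ => rfl, by unfold nd; omega⟩
  choose z h1 h2 h3 h4 using key
  exact ⟨z, h1, h2, h3, h4⟩

/-! ### Directed steps -/

/-- The shift in direction `s`. -/
def shf (L : ℕ) (up : Fin m → Bool) (s : Fin m) : (Fin m → ZMod L) ≃ (Fin m → ZMod L) :=
  Equiv.addRight (Pi.single s (if up s then 1 else -1))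

/-- The pattern with the phases of the small blocks frozen. -/
def cfz (c : (Fin m → ZMod L) → Fin m → Bool) (N : Fin m → ℕ) (z0 : Fin m → ZMod L)
    (w : Fin m → ZMod L) (s : Fin m) : Bool :=
  c (fun r => if 2 * L ≤ N r then w r else z0 r) s

/-- The colour of the directed step from `w` in direction `s`. -/
def scol (c : (Fin m → ZMod L) → Fin m → Bool) (N : Fin m → ℕ) (z0 : Fin m → ZMod L)
    (up : Fin m → Bool) (x : (Fin m → ZMod L) × Fin m) : Bool :=
  if up x.2 then cfz c N z0 x.1 x.2 else cfz c N z0 (x.1 - Pi.single x.2 1) x.2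

/-- The list of the colours of the first `K` states. -/
def colist {S : Type*} (col : S → Bool) : (ℕ → S) → ℕ → List Bool
  | _, 0 => []
  | x, K + 1 => col (x 0) :: colist col (fun i => x (i + 1)) K

lemma changes_colist {S : Type*} (col : S → Bool) (x : ℕ → S) (K : ℕ) :
    Pool.Agent.Hhelper43.Cube.changes (colist col x K)
      ≤ ∑ i ∈ range K, if col (x i) = col (x (i + 1)) then 0 else 1 := by
  induction K generalizing x with
  | zero => simp [colist, Pool.Agent.Hhelper43.Cube.changes]
  | succ K ih =>
    rw [Finset.sum_range_succ']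
    have h1 := ih (fun i => x (i + 1))
    cases K with
    | zero => simp [colist, Pool.Agent.Hhelper43.Cube.changes]
    | succ K =>
      change Pool.Agent.Hhelper43.Cube.changes (col (x 0) :: col (x 1) ::
        colist col (fun i => x (i + 1 + 1)) K) ≤ _
      rw [Pool.Agent.Hhelper43.Cube.changes]
      change Pool.Agent.Hhelper43.Cube.changes (col (x 1) ::
        colist col (fun i => x (i + 1 + 1)) K) ≤ _ at h1
      simp only [zero_add]
      omega

lemma seg_colist {S : Type*} (col : S → Bool) (x : ℕ → S) (K : ℕ) :
    seg (colist col x K) ≤ (∑ i ∈ range K, if col (x i) = col (x (i + 1)) then 0 else 1) + 1 := by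
  unfold seg
  split_ifs
  · omega
  · have := changes_colist col x K
    omega

/-- The number of directions `s` among the first `K` states. -/
def cnt (x : ℕ → (Fin m → ZMod L) × Fin m) (K : ℕ) (s : Fin m) : ℕ :=
  ∑ i ∈ range K, if (x i).2 = s then 1 else 0

lemma cnt_succ (x : ℕ → (Fin m → ZMod L) × Fin m) (K : ℕ) (s : Fin m) :
    cnt x (K + 1) s = cnt (fun i => x (i + 1)) K s + if (x 0).2 = s then 1 else 0 := by
  unfold cnt
  rw [Finset.sum_range_succ']

/-- The sign of a direction. -/
def sg (b : Bool) : ℤ := if b then 1 else -1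

/-- The free room in direction `s`. -/
def room (N : Fin m → ℕ) (up : Fin m → Bool) (y : Fin m → ℕ) (s : Fin m) : ℤ :=
  if up s then (N s : ℤ) - y s else y s

lemma run (up : Fin m → Bool) (z0 : Fin m → ZMod L) (K : ℕ) (x : ℕ → (Fin m → ZMod L) × Fin m)
    (hx : ∀ i, (x (i + 1)).1 = shf L up (x i).2 (x i).1) (hb : ∀ i, 2 * L ≤ N (x i).2)
    (y : Fin m → ℕ) (hy1 : ∀ s, 2 * L ≤ N s → (y s : ZMod L) = (x 0).1 s)
    (hy2 : ∀ s, ¬ 2 * L ≤ N s → (y s : ZMod L) = z0 s) (hyN : ∀ s, y s ≤ N s)
    (hr : ∀ s, (cnt x K s : ℤ) ≤ room N up y s) :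
    ∃ y', Lw c N y (colist (scol c N z0 up) x K) y' ∧ (∀ s, y' s ≤ N s) ∧
      ∀ s, (y' s : ℤ) = y s + sg (up s) * cnt x K s := by
  induction K generalizing x y with
  | zero =>
    refine ⟨y, Lw.nil _, hyN, fun s => ?_⟩
    simp [cnt]
  | succ K ih =>
    rcases hx0 : x 0 with ⟨w, s⟩
    have hs : (x 0).2 = s := by rw [hx0]
    have hw : (x 0).1 = w := by rw [hx0]
    have hbs : 2 * L ≤ N s := by rw [← hs]; exact hb 0
    have hx1 : (x 1).1 = w + Pi.single s (if up s then 1 else -1) := by
      have := hx 0
      rw [hs, hw] at this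
      exact this
    have hrs := hr s
    rw [cnt_succ, if_pos hs] at hrs
    unfold room at hrs
    cases hu : up s with
    | true =>
      rw [hu] at hrs hx1
      simp only [if_true] at hrs hx1
      have hlt : y s < N s := by
        push_cast at hrs
        omega
      have hcol : c (ph L y) s = scol c N z0 up (x 0) := by
        rw [hx0]
        unfold scol cfz
        simp only [hu, if_true]
        congr 1
        funext r
        unfold ph
        split_ifs with hr'
        · rw [hy1 r hr', hw]
        · rw [hy2 r hr']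
      have g1 : ∀ r, 2 * L ≤ N r → ((Function.update y s (y s + 1) r : ℕ) : ZMod L) = (x 1).1 r := by
        intro r hr'
        rw [hx1, Pi.add_apply]
        by_cases hrs' : r = s
        · subst hrs'
          rw [Function.update_self, Pi.single_eq_same]
          push_cast
          rw [hy1 r hr', hw]
        · rw [Function.update_of_ne hrs', Pi.single_eq_of_ne hrs', add_zero, hy1 r hr', hw]
      have g2 : ∀ r, ¬ 2 * L ≤ N r → ((Function.update y s (y s + 1) r : ℕ) : ZMod L) = z0 r := by
        intro r hr'
        have hrs' : r ≠ s := fun h => hr' (h ▸ hbs)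
        rw [Function.update_of_ne hrs', hy2 r hr']
      have g3 : ∀ r, Function.update y s (y s + 1) r ≤ N r := by
        intro r
        by_cases hrs' : r = s
        · subst hrs'
          rw [Function.update_self]
          omega
        · rw [Function.update_of_ne hrs']
          exact hyN r
      have g4 : ∀ r, (cnt (fun i => x (i + 1)) K r : ℤ)
          ≤ room N up (Function.update y s (y s + 1)) r := by
        intro r
        have hrr := hr r
        rw [cnt_succ, hs] at hrr
        unfold room at hrr ⊢
        by_cases hrs' : r = s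
        · subst hrs'
          rw [Function.update_self, hu]
          rw [hu] at hrr
          simp only [if_true] at hrr ⊢
          push_cast at hrr ⊢
          linarith
        · rw [Function.update_of_ne hrs']
          rw [if_neg (fun h => hrs' h.symm)] at hrr
          simpa using hrr
      obtain ⟨y', h1, h2, h3⟩ := ih (fun i => x (i + 1)) (fun i => hx (i + 1)) (fun i => hb (i + 1))
        (Function.update y s (y s + 1)) g1 g2 g3 g4
      refine ⟨y', ?_, h2, fun r => ?_⟩
      · change Lw c N y (scol c N z0 up (x 0) :: _) y'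
        rw [← hcol]
        exact Lw.up _ _ _ _ hlt h1
      · rw [h3 r, cnt_succ, hs]
        by_cases hrs' : r = s
        · subst hrs'
          rw [Function.update_self, hu]
          simp only [sg, if_true]
          push_cast
          ring
        · rw [Function.update_of_ne hrs', if_neg (fun h => hrs' h.symm)]
          push_cast
          ring
    | false =>
      rw [hu] at hrs hx1
      simp only [Bool.false_eq_true, if_false] at hrs hx1
      have hlt : 0 < y s := by
        push_cast at hrs
        omega
      have hcol : c (ph L (Function.update y s (y s - 1))) s = scol c N z0 up (x 0) := by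
        rw [hx0]
        unfold scol cfz
        simp only [hu, Bool.false_eq_true, if_false]
        congr 1
        funext r
        unfold ph
        by_cases hrs' : r = s
        · subst hrs'
          rw [Function.update_self, if_pos hbs, Pi.sub_apply, Pi.single_eq_same,
            Nat.cast_sub hlt, hy1 r hbs, hw, Nat.cast_one]
        · rw [Function.update_of_ne hrs', Pi.sub_apply, Pi.single_eq_of_ne hrs', sub_zero]
          split_ifs with hr'
          · rw [hy1 r hr', hw]
          · rw [hy2 r hr']
      have g1 : ∀ r, 2 * L ≤ N r → ((Function.update y s (y s - 1) r : ℕ) : ZMod L) = (x 1).1 r := by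
        intro r hr'
        rw [hx1, Pi.add_apply]
        by_cases hrs' : r = s
        · subst hrs'
          rw [Function.update_self, Pi.single_eq_same, Nat.cast_sub hlt, hy1 r hr', hw]
          push_cast
          ring
        · rw [Function.update_of_ne hrs', Pi.single_eq_of_ne hrs', add_zero, hy1 r hr', hw]
      have g2 : ∀ r, ¬ 2 * L ≤ N r → ((Function.update y s (y s - 1) r : ℕ) : ZMod L) = z0 r := by
        intro r hr'
        have hrs' : r ≠ s := fun h => hr' (h ▸ hbs)
        rw [Function.update_of_ne hrs', hy2 r hr']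
      have g3 : ∀ r, Function.update y s (y s - 1) r ≤ N r := by
        intro r
        by_cases hrs' : r = s
        · subst hrs'
          rw [Function.update_self]
          have := hyN r
          omega
        · rw [Function.update_of_ne hrs']
          exact hyN r
      have g4 : ∀ r, (cnt (fun i => x (i + 1)) K r : ℤ)
          ≤ room N up (Function.update y s (y s - 1)) r := by
        intro r
        have hrr := hr r
        rw [cnt_succ, hs] at hrr
        unfold room at hrr ⊢
        by_cases hrs' : r = s
        · subst hrs'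
          rw [Function.update_self, hu]
          rw [hu] at hrr
          simp only [Bool.false_eq_true, if_false, if_true] at hrr ⊢
          push_cast [Nat.cast_sub hlt] at hrr ⊢
          linarith
        · rw [Function.update_of_ne hrs']
          rw [if_neg (fun h => hrs' h.symm)] at hrr
          simpa using hrr
      obtain ⟨y', h1, h2, h3⟩ := ih (fun i => x (i + 1)) (fun i => hx (i + 1)) (fun i => hb (i + 1))
        (Function.update y s (y s - 1)) g1 g2 g3 g4
      refine ⟨y', ?_, h2, fun r => ?_⟩
      · change Lw c N y (scol c N z0 up (x 0) :: _) y'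
        rw [← hcol]
        exact Lw.down _ _ _ _ hlt h1
      · rw [h3 r, cnt_succ, hs]
        by_cases hrs' : r = s
        · subst hrs'
          rw [Function.update_self, hu]
          simp only [sg, Bool.false_eq_true, if_false, if_true]
          push_cast [Nat.cast_sub hlt]
          ring
        · rw [Function.update_of_ne hrs', if_neg (fun h => hrs' h.symm)]
          push_cast
          ring

end Pool.Agent.C14P
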