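import Mathlib
import Pool.Agent.C14P.Lat

set_option autoImplicit false
set_option linter.unusedSectionVars false

namespace Pool.Agent.C14P

open Finset

section per

variable {W : Type*} [Fintype W] [DecidableEq W] {m : ℕ}

lemma stt_mod (C : Cyc W m) (i : ℕ) : stt C (i % per C) = stt C i :=
  Function.iterate_mod_minimalPeriod_eq

lemma stt_succ (C : Cyc W m) (i : ℕ) : stt C (i + 1) = C.1 (stt C i) :=
  Function.iterate_succ_apply' _ _ _

lemma stt_mod_succ (C : Cyc W m) (i : ℕ) : stt C (i % per C + 1) = stt C (i + 1) := by
  rw [stt_succ, stt_succ, stt_mod]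

lemma stt_add (C : Cyc W m) (i : ℕ) : stt C (i + per C) = stt C i := by
  rw [← stt_mod C (i + per C), Nat.add_mod_right, stt_mod]

end per

lemma sum_periodic (g : ℕ → ℕ) (p : ℕ) (hg : ∀ i, g (i + p) = g i) (k : ℕ) :
    ∑ i ∈ range (k * p), g i = k * ∑ i ∈ range p, g i := by
  have h1 : ∀ k i, g (k * p + i) = g i := by
    intro k
    induction k with
    | zero => intro i; simp
    | succ k ih =>
      intro i
      have : (k + 1) * p + i = (k * p + i) + p := by ring
      rw [this, hg, ih]
  induction k with
  | zero => simp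
  | succ k ih =>
    rw [Nat.succ_mul, Finset.sum_range_add, ih]
    have h2 : ∑ i ∈ range p, g (k * p + i) = ∑ i ∈ range p, g i :=
      Finset.sum_congr rfl fun i _ => h1 k i
    rw [h2]
    ring

variable {m L : ℕ} {c : (Fin m → ZMod L) → Fin m → Bool} {N : Fin m → ℕ}

lemma cnt_cycle [NeZero L] (C : Cyc (Fin m → ZMod L) m) (k : ℕ) (s : Fin m) :
    cnt (stt C) (k * per C) s = k * us C s := by
  unfold cnt us
  exact sum_periodic (fun i => if (stt C i).2 = s then 1 else 0) (per C)
    (fun i => by simp only [stt_add]) k

lemma cst_cycle [NeZero L] (col : (Fin m → ZMod L) × Fin m → Bool)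
    (C : Cyc (Fin m → ZMod L) m) (k : ℕ) :
    (∑ i ∈ range (k * per C), if col (stt C i) = col (stt C (i + 1)) then 0 else 1)
      = k * cst col C := by
  unfold cst
  refine sum_periodic (fun i => if col (stt C i) = col (stt C (i + 1)) then 0 else 1) (per C)
    (fun i => ?_) k
  have : i + per C + 1 = (i + 1) + per C := by ring
  simp only [this, stt_add]

lemma room_travel (up : Fin m → Bool) (y z : Fin m → ℕ) (s : Fin m) (h : nd (y s) (z s) ≤ L) :
    room N up y s ≤ room N up z s + L := by
  unfold room
  unfold nd at h
  split_ifs <;> omega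

lemma process [NeZero L] (hL : 0 < L) (up : Fin m → Bool) (z0 : Fin m → ZMod L)
    (k : Cyc (Fin m → ZMod L) m → ℕ) (ℓ : List (Cyc (Fin m → ZMod L) m))
    (hval : ∀ C ∈ ℓ, 0 < k C → 0 < per C → ∀ i,
      (stt C (i + 1)).1 = shf L up (stt C i).2 (stt C i).1 ∧ 2 * L ≤ N (stt C i).2)
    (y : Fin m → ℕ) (hyN : ∀ s, y s ≤ N s)
    (hy2 : ∀ s, ¬ 2 * L ≤ N s → (y s : ZMod L) = z0 s)
    (hroom : ∀ s, (ℓ.map (fun C => k C * us C s)).sum = 0 ∨
      (((ℓ.map (fun C => k C * us C s)).sum : ℕ) : ℤ) + ℓ.length * L ≤ room N up y s) :
    ∃ y' : Fin m → ℕ, (∀ s, y' s ≤ N s) ∧ (∀ s, ¬ 2 * L ≤ N s → y' s = y s) ∧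
      Rc c N ((ℓ.map (fun C => k C * cst (scol c N z0 up) C)).sum + ℓ.length * (1 + m * L)) y y' ∧
      ∀ s, |(y' s : ℤ) - (y s + sg (up s) * (((ℓ.map (fun C => k C * us C s)).sum : ℕ) : ℤ))|
        ≤ ℓ.length * L := by
  induction ℓ generalizing y with
  | nil =>
    refine ⟨y, hyN, fun _ _ => rfl, ⟨[], Lw.nil _, le_of_eq_of_le seg_nil (Nat.zero_le _)⟩,
      fun s => ?_⟩
    simp
  | cons C ℓ ih =>
    obtain ⟨z, hz1, hz2, hz3, hz4⟩ := phase_target (N := N) hL y hyN (stt C 0).1
    have ht := travel (c := c) (N := N) y z hz1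
    have htm : ∑ s, nd (y s) (z s) ≤ m * L := by
      refine (Finset.sum_le_card_nsmul _ _ L fun s _ => hz4 s).trans ?_
      simp
    have hzr : ∀ s, 0 ≤ room N up z s := by
      intro s
      have := hz1 s
      unfold room
      split_ifs <;> omega
    have hroomz : ∀ s, ((k C * us C s : ℕ) : ℤ) ≤ room N up z s := by
      intro s
      have h1 := hroom s
      rw [List.map_cons, List.sum_cons, List.length_cons] at h1
      rcases h1 with h1 | h1
      · have : k C * us C s = 0 := by omega
        rw [this]
        simpa using hzr s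
      · have h2 := room_travel (N := N) up y z s (hz4 s)
        push_cast at h1 ⊢
        have h3 : (0 : ℤ) ≤ (ℓ.map (fun C => (k C * us C s : ℕ))).sum := by positivity
        have h4 : (0 : ℤ) ≤ (ℓ.length : ℤ) * L := by positivity
        push_cast at h3
        nlinarith
    -- the run around the cycle
    obtain ⟨z', h1, h2, h3, h4⟩ : ∃ z' : Fin m → ℕ,
        Rc c N (k C * cst (scol c N z0 up) C + 1) z z' ∧ (∀ s, z' s ≤ N s) ∧
        (∀ s, (z' s : ℤ) = z s + sg (up s) * ((k C * us C s : ℕ) : ℤ)) ∧
        (∀ s, ¬ 2 * L ≤ N s → z' s = z s) := by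
      rcases Nat.eq_zero_or_pos (k C * per C) with h0 | h0
      · have hu : ∀ s, k C * us C s = 0 := by
          intro s
          rw [← cnt_cycle, h0]
          simp [cnt]
        refine ⟨z, ⟨[], Lw.nil _, le_of_eq_of_le seg_nil (Nat.zero_le _)⟩, hz1, fun s => ?_,
          fun _ _ => rfl⟩
        rw [hu s]
        simp
      · have hk : 0 < k C := Nat.pos_of_mul_pos_left h0 |> fun _ => by
          rcases Nat.eq_zero_or_pos (k C) with h | h
          · rw [h] at h0; simp at h0
          · exact h
        have hp : 0 < per C := by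
          rcases Nat.eq_zero_or_pos (per C) with h | h
          · rw [h] at h0; simp at h0
          · exact h
        have hv := hval C List.mem_cons_self hk hp
        obtain ⟨z', g1, g2, g3⟩ := run (c := c) (N := N) up z0 (k C * per C) (stt C)
          (fun i => (hv i).1) (fun i => (hv i).2) z hz2
          (fun s hs => by rw [hz3 s hs]; exact hy2 s hs) hz1
          (fun s => by rw [cnt_cycle]; exact hroomz s)
        refine ⟨z', ⟨_, g1, ?_⟩, g2, fun s => ?_, fun s hs => ?_⟩
        · have := seg_colist (scol c N z0 up) (stt C) (k C * per C)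
          rw [cst_cycle] at this
          exact this
        · rw [g3 s, cnt_cycle]
        · have h5 := g3 s
          have h6 : cnt (stt C) (k C * per C) s = 0 := by
            unfold cnt
            refine Finset.sum_eq_zero fun i _ => if_neg fun h => hs ?_
            rw [← h]
            exact (hv i).2
          rw [h6] at h5
          push_cast at h5
          rw [mul_zero, add_zero] at h5
          exact_mod_cast h5
    have hroom' : ∀ s, (ℓ.map (fun C => k C * us C s)).sum = 0 ∨
      (((ℓ.map (fun C => k C * us C s)).sum : ℕ) : ℤ) + ℓ.length * L ≤ room N up z' s := by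
      intro s
      have g1 := hroom s
      rw [List.map_cons, List.sum_cons, List.length_cons] at g1
      rcases g1 with g1 | g1
      · left; omega
      · right
        have g2 := room_travel (N := N) up y z s (hz4 s)
        have g3 := h3 s
        have g4 : room N up z' s = room N up z s - ((k C * us C s : ℕ) : ℤ) := by
          unfold room
          unfold sg at g3
          split_ifs with hu
          · rw [if_pos hu] at g3
            linarith
          · rw [if_neg hu] at g3
            linarith
        rw [g4]
        push_cast at g1 g2 ⊢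
        linarith
    obtain ⟨y', k1, k2, k3, k4⟩ := ih (fun C' hC' => hval C' (List.mem_cons_of_mem _ hC')) z' h2
      (fun s hs => by rw [h4 s hs, hz3 s hs]; exact hy2 s hs) hroom'
    refine ⟨y', k1, fun s hs => by rw [k2 s hs, h4 s hs, hz3 s hs], ?_, fun s => ?_⟩
    · refine ((ht.trans h1).trans k3).mono ?_
      rw [List.map_cons, List.sum_cons, List.length_cons]
      have : (ℓ.length + 1) * (1 + m * L) = ℓ.length * (1 + m * L) + 1 + m * L := by ring
      omega
    · have g1 := k4 s
      have g2 := h3 s
      have g3 := hz4 s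
      rw [List.map_cons, List.sum_cons, List.length_cons]
      have g4 : |(z s : ℤ) - y s| ≤ L := by
        unfold nd at g3
        rw [abs_le]
        omega
      have g5 : (y' s : ℤ) - (y s + sg (up s) * (((k C * us C s
          + (ℓ.map (fun C => k C * us C s)).sum : ℕ)) : ℤ))
          = ((y' s : ℤ) - (z' s + sg (up s) * (((ℓ.map (fun C => k C * us C s)).sum : ℕ) : ℤ)))
            + ((z s : ℤ) - y s) := by
        rw [g2]
        push_cast
        ring
      rw [g5]
      refine (abs_add_le _ _).trans ?_
      push_cast at g1 g4 ⊢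
      linarith

/-- The constant of the theorem. -/
noncomputable def C0 (m L : ℕ) [NeZero L] : ℕ :=
  m * (2 * L) + Fintype.card (Cyc (Fin m → ZMod L) m) * (1 + m * L)
    + m * (Fintype.card (Cyc (Fin m → ZMod L) m)
        * ((Fintype.card (Cyc (Fin m → ZMod L) m) * L + 1)
          * Fintype.card ((Fin m → ZMod L) × Fin m))
      + Fintype.card (Cyc (Fin m → ZMod L) m) * L)

theorem lattice_bound [NeZero L] (c : (Fin m → ZMod L) → Fin m → Bool) (N : Fin m → ℕ)
    (y : Fin m → ℕ) (hy : ∀ s, y s ≤ N s) :
    ∃ K : ℕ, Rc c N K y (fun s => N s - y s) ∧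
      (Fintype.card (Fin m → ZMod L) : ℤ) * K ≤
        ∑ w : Fin m → ZMod L, |∑ s, (if 2 * L ≤ N s then (N s : ℤ) - 2 * y s else 0) *
          ((if cfz c N (ph L fun s => N s - y s) (w - Pi.single s 1) s = true then 1 else 0)
            - (if cfz c N (ph L fun s => N s - y s) w s = true then 1 else 0))|
        + Fintype.card (Fin m → ZMod L) * C0 m L := by
  have hL : 0 < L := Nat.pos_of_ne_zero (NeZero.ne L)
  set z0 := ph L fun s => N s - y s with hz0
  let up : Fin m → Bool := fun s => decide (2 * y s ≤ N s)
  let N' : Fin m → ℕ := fun s => if 2 * L ≤ N s then ((N s : ℤ) - 2 * y s).natAbs else 0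
  set B := Fintype.card (Cyc (Fin m → ZMod L) m) * L with hB
  obtain ⟨k, hk1, hk2, hk3, hk4⟩ := core (shf L up) (scol c N z0 up) N' B
  let y0 : Fin m → ℕ := fun s => if 2 * L ≤ N s then y s else N s - y s
  have hy0N : ∀ s, y0 s ≤ N s := by
    intro s
    have := hy s
    simp only [y0]
    split_ifs <;> omega
  have ht1 := travel (c := c) (N := N) y y0 hy0N
  have ht1m : ∑ s, nd (y s) (y0 s) ≤ m * (2 * L) := by
    refine (Finset.sum_le_card_nsmul _ _ (2 * L) fun s _ => ?_).trans (by simp)
    have := hy s
    simp only [y0]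
    unfold nd
    split_ifs <;> omega
  have hlist : ∀ f : Cyc (Fin m → ZMod L) m → ℕ,
      ((Finset.univ : Finset (Cyc (Fin m → ZMod L) m)).toList.map f).sum = ∑ C, f C :=
    fun f => Finset.sum_map_toList _ _
  have hlen : (Finset.univ : Finset (Cyc (Fin m → ZMod L) m)).toList.length
      = Fintype.card (Cyc (Fin m → ZMod L) m) := by
    rw [Finset.length_toList, Finset.card_univ]
  obtain ⟨y1, g1, g2, g3, g4⟩ := process (c := c) (N := N) hL up z0 k
    (Finset.univ : Finset (Cyc (Fin m → ZMod L) m)).toList
    (fun C _ hkC hpC i => by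
      have hi : i % per C < per C := Nat.mod_lt _ hpC
      have h1 := hk1 C hkC (i % per C) hi
      rw [stt_mod_succ, stt_mod] at h1
      refine ⟨h1, ?_⟩
      have h2 : 0 < us C (stt C i).2 := by
        unfold us
        refine lt_of_lt_of_le ?_ (Finset.single_le_sum
          (f := fun j => if (stt C j).2 = (stt C i).2 then 1 else 0)
          (fun _ _ => Nat.zero_le _) (Finset.mem_range.mpr hi))
        simp only [stt_mod, if_true]
        omega
      have h3 : 0 < k C * us C (stt C i).2 := Nat.mul_pos hkC h2
      have h4 : k C * us C (stt C i).2 ≤ ∑ C', k C' * us C' (stt C i).2 :=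
        Finset.single_le_sum (f := fun C' => k C' * us C' (stt C i).2)
          (fun _ _ => Nat.zero_le _) (Finset.mem_univ C)
      by_contra h5
      have h6 : N' (stt C i).2 = 0 := if_neg h5
      have h7 := hk2 (stt C i).2
      rw [h6] at h7
      omega) y0 hy0N
    (fun s hs => by
      simp only [y0, if_neg hs, hz0, ph])
    (fun s => by
      rw [hlist, hlen]
      have h1 := hk2 s
      rcases h1 with h1 | h1
      · left; exact h1
      · by_cases hs : 2 * L ≤ N s
        · right
          have h2 : N' s = ((N s : ℤ) - 2 * y s).natAbs := if_pos hs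
          have h3 : y0 s = y s := if_pos hs
          have h4 : (N' s : ℤ) ≤ room N up y0 s := by
            unfold room
            rw [h2, h3]
            have := hy s
            by_cases hu : 2 * y s ≤ N s
            · have hup : up s = true := decide_eq_true hu
              rw [hup, if_pos rfl]
              omega
            · have hup : up s = false := decide_eq_false hu
              rw [hup]
              simp only [Bool.false_eq_true, if_false]
              omega
          have h5 : ((∑ C, k C * us C s + B : ℕ) : ℤ) ≤ (N' s : ℤ) := by exact_mod_cast h1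
          rw [hB] at h5
          push_cast at h5 ⊢
          linarith
        · left
          have h2 : N' s = 0 := if_neg hs
          omega)
  rw [hlist, hlen] at g3
  have g4' : ∀ s, |(y1 s : ℤ) - (y0 s + sg (up s) * ((∑ C, k C * us C s : ℕ) : ℤ))| ≤ B := by
    intro s
    have := g4 s
    rw [hlist, hlen] at this
    rw [hB]
    push_cast at this ⊢
    exact this
  have ht2 := travel (c := c) (N := N) y1 (fun s => N s - y s) (fun s => Nat.sub_le _ _)
  have ht2m : ∑ s, nd (y1 s) (N s - y s) ≤ m * (Fintype.card (Cyc (Fin m → ZMod L) m)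
        * ((B + 1) * Fintype.card ((Fin m → ZMod L) × Fin m)) + B) := by
    refine (Finset.sum_le_card_nsmul _ _ _ fun s _ => ?_).trans (le_of_eq (by
      rw [Finset.card_univ, Fintype.card_fin, smul_eq_mul]))
    have hys := hy s
    by_cases hs : 2 * L ≤ N s
    · have h1 := g4' s
      have h2 := hk2 s
      have h3 := hk3 s
      have h4 : N' s = ((N s : ℤ) - 2 * y s).natAbs := if_pos hs
      have h5 : y0 s = y s := if_pos hs
      rw [h5] at h1
      rw [abs_le] at h1
      generalize (∑ C, k C * us C s) = T at h1 h2 h3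
      generalize Fintype.card (Cyc (Fin m → ZMod L) m)
        * ((B + 1) * Fintype.card ((Fin m → ZMod L) × Fin m)) = B1 at h3 ⊢
      unfold nd
      by_cases hu : 2 * y s ≤ N s
      · have hup : up s = true := decide_eq_true hu
        rw [hup] at h1
        simp only [sg, if_true] at h1
        omega
      · have hup : up s = false := decide_eq_false hu
        rw [hup] at h1
        simp only [sg, Bool.false_eq_true, if_false] at h1
        omega
    · have h1 := g2 s hs
      have h2 : y0 s = N s - y s := if_neg hs
      rw [h1, h2]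
      unfold nd
      omega
  refine ⟨_, (ht1.trans g3).trans ht2, ?_⟩
  have hsum : ∑ w : Fin m → ZMod L, |∑ s, (N' s : ℤ) *
        ((if scol c N z0 up ((shf L up s).symm w, s) = true then 1 else 0)
          - (if scol c N z0 up (w, s) = true then 1 else 0))|
      = ∑ w : Fin m → ZMod L, |∑ s, (if 2 * L ≤ N s then (N s : ℤ) - 2 * y s else 0) *
          ((if cfz c N z0 (w - Pi.single s 1) s = true then 1 else 0)
            - (if cfz c N z0 w s = true then 1 else 0))| := by
    refine Finset.sum_congr rfl fun w _ => ?_
    congr 1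
    refine Finset.sum_congr rfl fun s _ => ?_
    by_cases hs : 2 * L ≤ N s
    · have h4 : N' s = ((N s : ℤ) - 2 * y s).natAbs := if_pos hs
      rw [h4, if_pos hs]
      by_cases hu : 2 * y s ≤ N s
      · have hup : up s = true := decide_eq_true hu
        have e1 : scol c N z0 up ((shf L up s).symm w, s) = cfz c N z0 (w - Pi.single s 1) s := by
          unfold scol shf
          simp only [hup, if_true, Equiv.addRight_symm, Equiv.coe_addRight]
          rw [sub_eq_add_neg]
        have e2 : scol c N z0 up (w, s) = cfz c N z0 w s := by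
          unfold scol
          simp only [hup, if_true]
        rw [e1, e2]
        congr 1
        omega
      · have hup : up s = false := decide_eq_false hu
        have e1 : scol c N z0 up ((shf L up s).symm w, s) = cfz c N z0 w s := by
          unfold scol shf
          simp only [hup, Bool.false_eq_true, if_false, Equiv.addRight_symm, Equiv.coe_addRight]
          congr 1
          rw [← Pi.single_neg, neg_neg, add_sub_cancel_right]
        have e2 : scol c N z0 up (w, s) = cfz c N z0 (w - Pi.single s 1) s := by
          unfold scol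
          simp only [hup, Bool.false_eq_true, if_false]
        rw [e1, e2]
        have e3 : (((N s : ℤ) - 2 * y s).natAbs : ℤ) = -((N s : ℤ) - 2 * y s) := by omega
        rw [e3]
        ring
    · have h4 : N' s = 0 := if_neg hs
      rw [h4, if_neg hs]
      simp
  rw [hsum] at hk4
  have hK : ∑ s, nd (y s) (y0 s) + (∑ C, k C * cst (scol c N z0 up) C
      + Fintype.card (Cyc (Fin m → ZMod L) m) * (1 + m * L)) + ∑ s, nd (y1 s) (N s - y s)
      ≤ ∑ C, k C * cst (scol c N z0 up) C + C0 m L := by
    unfold C0
    rw [← hB]
    omega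
  have hK' : ((∑ s, nd (y s) (y0 s) + (∑ C, k C * cst (scol c N z0 up) C
      + Fintype.card (Cyc (Fin m → ZMod L) m) * (1 + m * L)) + ∑ s, nd (y1 s) (N s - y s) : ℕ) : ℤ)
      ≤ ((∑ C, k C * cst (scol c N z0 up) C : ℕ) : ℤ) + (C0 m L : ℤ) := by exact_mod_cast hK
  have hQ : (0 : ℤ) ≤ Fintype.card (Fin m → ZMod L) := by positivity
  calc (Fintype.card (Fin m → ZMod L) : ℤ) * _
      ≤ (Fintype.card (Fin m → ZMod L) : ℤ) * (((∑ C, k C * cst (scol c N z0 up) C : ℕ) : ℤ)
        + (C0 m L : ℤ)) := mul_le_mul_of_nonneg_left hK' hQ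
    _ = ((Fintype.card (Fin m → ZMod L) * ∑ C, k C * cst (scol c N z0 up) C : ℕ) : ℤ)
        + Fintype.card (Fin m → ZMod L) * C0 m L := by push_cast; ring
    _ ≤ _ := by linarith

end Pool.Agent.C14P
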