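import Mathlib
import Pool.Agent.C14P.Defs
import Pool.Agent.C14P.Proc

set_option autoImplicit false
set_option linter.unusedSectionVars false

namespace Pool.Agent.C14P

open Finset
open Pool.Agent.Hhelper43.Cube

variable {n m L : ℕ}

/-- The number of ones of `v` in the block `s`. -/
def yv (t : Fin n → Fin m) (v : V n) (s : Fin m) : ℕ := #{j | t j = s ∧ v j = true}

/-- The size of the block `s`. -/
def bs (t : Fin n → Fin m) (s : Fin m) : ℕ := #{j | t j = s}

lemma yv_le (t : Fin n → Fin m) (v : V n) (s : Fin m) : yv t v s ≤ bs t s := by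
  refine Finset.card_le_card fun j hj => ?_
  rw [Finset.mem_filter] at hj ⊢
  exact ⟨hj.1, hj.2.1⟩

lemma flip_eq_update (v : V n) (i : Fin n) (h : v i = false) :
    Pool.Agent.Hhelper43.Cube.flip v i = Function.update v i true := by
  unfold Pool.Agent.Hhelper43.Cube.flip
  rw [h]
  rfl

lemma yv_flip_false (t : Fin n → Fin m) (v : V n) (i : Fin n) (h : v i = false) :
    yv t (Pool.Agent.Hhelper43.Cube.flip v i)
      = Function.update (yv t v) (t i) (yv t v (t i) + 1) := by
  funext s
  by_cases hs : s = t i
  · subst hs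
    rw [Function.update_self]
    unfold yv
    have h1 : (univ.filter fun j => t j = t i ∧ Pool.Agent.Hhelper43.Cube.flip v i j = true)
        = insert i (univ.filter fun j => t j = t i ∧ v j = true) := by
      ext j
      simp only [Finset.mem_filter, Finset.mem_univ, true_and, Finset.mem_insert, flip_apply]
      by_cases hj : j = i
      · subst hj; simp [h]
      · simp [hj]
    rw [h1, Finset.card_insert_of_notMem (by simp [h])]
  · rw [Function.update_of_ne hs]
    unfold yv
    congr 1
    ext j
    simp only [Finset.mem_filter, Finset.mem_univ, true_and, flip_apply]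
    by_cases hj : j = i
    · subst hj
      have : t j ≠ s := fun h => hs h.symm
      simp [this]
    · simp [hj]

lemma yv_flip_true (t : Fin n → Fin m) (v : V n) (i : Fin n) (h : v i = true) :
    0 < yv t v (t i) ∧ yv t (Pool.Agent.Hhelper43.Cube.flip v i)
      = Function.update (yv t v) (t i) (yv t v (t i) - 1) := by
  have h0 : Pool.Agent.Hhelper43.Cube.flip v i i = false := by rw [flip_apply, if_pos rfl, h]; rfl
  have h1 := yv_flip_false t (Pool.Agent.Hhelper43.Cube.flip v i) i h0
  rw [Pool.Agent.Hhelper43.Cube.flip_flip] at h1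
  have h2 : yv t v (t i) = yv t (Pool.Agent.Hhelper43.Cube.flip v i) (t i) + 1 := by
    have := congrFun h1 (t i)
    rwa [Function.update_self] at this
  refine ⟨by omega, ?_⟩
  funext s
  by_cases hs : s = t i
  · subst hs
    rw [Function.update_self]
    omega
  · rw [Function.update_of_ne hs]
    have := congrFun h1 s
    rw [Function.update_of_ne hs] at this
    exact this.symm

section col

variable {χ : Sym2 (V n) → Bool} {t : Fin n → Fin m} {c : (Fin m → ZMod L) → Fin m → Bool}

/-- The hypothesis on the colouring. -/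
def IsPat (χ : Sym2 (V n) → Bool) (t : Fin n → Fin m) (c : (Fin m → ZMod L) → Fin m → Bool) :
    Prop :=
  ∀ (v : V n) (i : Fin n), v i = false →
    χ s(v, Pool.Agent.Hhelper43.Cube.flip v i) = c (ph L (yv t v)) (t i)

lemma ecol_false (h : IsPat χ t c) (v : V n) (i : Fin n) (hi : v i = false) :
    ecol χ v i = c (ph L (yv t v)) (t i) := h v i hi

lemma ecol_true (h : IsPat χ t c) (v : V n) (i : Fin n) (hi : v i = true) :
    ecol χ v i = c (ph L (Function.update (yv t v) (t i) (yv t v (t i) - 1))) (t i) := by
  have h0 : Pool.Agent.Hhelper43.Cube.flip v i i = false := by rw [flip_apply, if_pos rfl, hi]; rfl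
  rw [← ecol_flip, ecol_false h _ i h0, (yv_flip_true t v i hi).2]

lemma lift_walk (h : IsPat χ t c) {y z : Fin m → ℕ} {l : List Bool}
    (hl : Lw c (bs t) y l z) (v : V n) (hv : yv t v = y) :
    ∃ dl : List (Fin n), cols χ v dl = l ∧ yv t (endp v dl) = z := by
  induction hl generalizing v with
  | nil y => exact ⟨[], rfl, hv⟩
  | up y z l s hs _ ih =>
    obtain ⟨i, hi1, hi2⟩ : ∃ i, t i = s ∧ v i = false := by
      by_contra hno
      push Not at hno
      have : bs t s ≤ yv t v s := by
        refine Finset.card_le_card fun j hj => ?_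
        rw [Finset.mem_filter] at hj ⊢
        refine ⟨hj.1, hj.2, ?_⟩
        have := hno j hj.2
        simpa using this
      rw [hv] at this
      omega
    subst hi1
    obtain ⟨dl, h1, h2⟩ := ih (Pool.Agent.Hhelper43.Cube.flip v i) (by
      rw [yv_flip_false t v i hi2, hv])
    refine ⟨i :: dl, ?_, h2⟩
    rw [cols, h1, ecol_false h v i hi2, hv]
  | down y z l s hs _ ih =>
    obtain ⟨i, hi1, hi2⟩ : ∃ i, t i = s ∧ v i = true := by
      by_contra hno
      push Not at hno
      have : yv t v s = 0 := by
        unfold yv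
        rw [Finset.card_eq_zero, Finset.filter_eq_empty_iff]
        intro j _ hj
        exact hno j hj.1 hj.2
      rw [hv] at this
      omega
    subst hi1
    obtain ⟨dl, h1, h2⟩ := ih (Pool.Agent.Hhelper43.Cube.flip v i) (by
      rw [(yv_flip_true t v i hi2).2, hv])
    refine ⟨i :: dl, ?_, h2⟩
    rw [cols, h1, ecol_true h v i hi2, hv]

lemma block_shuffle (h : IsPat χ t c) (s : Fin m) (z : V n) (d : ℕ) (u : V n)
    (hd1 : #{j | t j = s ∧ u j = true ∧ z j = false} = d)
    (hd2 : #{j | t j = s ∧ u j = false ∧ z j = true} = d) :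
    ∃ l : List (Fin n), endp u l = (fun j => if t j = s then z j else u j) ∧
      cols χ u l = List.replicate l.length (c (ph L (yv t u)) s) ∧
      yv t (endp u l) = yv t u := by
  induction d generalizing u with
  | zero =>
    refine ⟨[], ?_, rfl, rfl⟩
    funext j
    change u j = _
    split_ifs with hj
    · rw [Finset.card_eq_zero, Finset.filter_eq_empty_iff] at hd1 hd2
      have h1 := hd1 (Finset.mem_univ j)
      have h2 := hd2 (Finset.mem_univ j)
      cases hu : u j <;> cases hz : z j <;> simp_all
    · rfl
  | succ d ih =>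
    obtain ⟨i, hi⟩ : (univ.filter fun j => t j = s ∧ u j = true ∧ z j = false).Nonempty := by
      rw [← Finset.card_pos]; omega
    obtain ⟨j, hj⟩ : (univ.filter fun j => t j = s ∧ u j = false ∧ z j = true).Nonempty := by
      rw [← Finset.card_pos]; omega
    rw [Finset.mem_filter] at hi hj
    obtain ⟨-, hi1, hi2, hi3⟩ := hi
    obtain ⟨-, hj1, hj2, hj3⟩ := hj
    have hij : i ≠ j := fun h => by rw [h, hj2] at hi2; simp at hi2
    set u1 := Pool.Agent.Hhelper43.Cube.flip u j with hu1
    set u2 := Pool.Agent.Hhelper43.Cube.flip u1 i with hu2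
    have e1 : u1 i = true := by rw [hu1, flip_apply, if_neg hij, hi2]
    have hy1 : yv t u1 = Function.update (yv t u) s (yv t u s + 1) := by
      rw [hu1, yv_flip_false t u j hj2, hj1]
    have hy2 : yv t u2 = yv t u := by
      rw [hu2, (yv_flip_true t u1 i e1).2, hi1, hy1]
      simp
    have hu2a : ∀ r, u2 r = if r = i ∨ r = j then !u r else u r := by
      intro r
      rw [hu2, hu1, flip_apply, flip_apply]
      by_cases h1 : r = i
      · subst h1; simp [hij]
      · by_cases h2 : r = j
        · subst h2; simp [h1]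
        · simp [h1, h2]
    have hd1' : #{j | t j = s ∧ u2 j = true ∧ z j = false} = d := by
      have : (univ.filter fun r => t r = s ∧ u r = true ∧ z r = false)
          = insert i (univ.filter fun r => t r = s ∧ u2 r = true ∧ z r = false) := by
        ext r
        simp only [Finset.mem_filter, Finset.mem_univ, true_and, Finset.mem_insert]
        rw [hu2a]
        by_cases h1 : r = i
        · subst h1; simp [hi1, hi2, hi3]
        · by_cases h2 : r = j
          · subst h2; simp [h1, hj2, hj3]
          · simp [h1, h2]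
      rw [this, Finset.card_insert_of_notMem (by simp [hu2a, hi2])] at hd1
      omega
    have hd2' : #{j | t j = s ∧ u2 j = false ∧ z j = true} = d := by
      have : (univ.filter fun r => t r = s ∧ u r = false ∧ z r = true)
          = insert j (univ.filter fun r => t r = s ∧ u2 r = false ∧ z r = true) := by
        ext r
        simp only [Finset.mem_filter, Finset.mem_univ, true_and, Finset.mem_insert]
        rw [hu2a]
        by_cases h1 : r = j
        · subst h1; simp [hj1, hj2, hj3]
        · by_cases h2 : r = i
          · subst h2; simp [h1, hi2, hi3]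
          · simp [h1, h2]
      rw [this, Finset.card_insert_of_notMem (by simp [hu2a, hj2])] at hd2
      omega
    obtain ⟨l, hl1, hl2, hl3⟩ := ih u2 hd1' hd2'
    refine ⟨j :: i :: l, ?_, ?_, ?_⟩
    · change endp u2 l = _
      rw [hl1]
      funext r
      split_ifs with hr
      · rfl
      · rw [hu2a]
        have h1 : r ≠ i := fun h => hr (h ▸ hi1)
        have h2 : r ≠ j := fun h => hr (h ▸ hj1)
        simp [h1, h2]
    · change ecol χ u j :: ecol χ u1 i :: cols χ u2 l = _
      rw [hl2, ecol_false h u j hj2, ecol_true h u1 i e1, hi1, hj1, hy1, hy2]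
      simp [List.replicate_succ]
    · change yv t (endp u2 l) = _
      rw [hl3, hy2]

lemma block_shuffle' (h : IsPat χ t c) (s : Fin m) (z : V n) (u : V n)
    (hy : yv t u s = yv t z s) :
    RQ χ 1 u (fun j => if t j = s then z j else u j) := by
  have h1 : #{j | t j = s ∧ u j = true ∧ z j = false} + #{j | t j = s ∧ u j = true ∧ z j = true}
      = yv t u s := by
    unfold yv
    rw [← Finset.card_union_of_disjoint]
    · congr 1
      ext j
      simp only [Finset.mem_union, Finset.mem_filter, Finset.mem_univ, true_and]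
      cases z j <;> simp
    · rw [Finset.disjoint_filter]
      intro j _ hj hj'
      rw [hj.2.2] at hj'
      simp at hj'
  have h2 : #{j | t j = s ∧ u j = false ∧ z j = true} + #{j | t j = s ∧ u j = true ∧ z j = true}
      = yv t z s := by
    unfold yv
    rw [← Finset.card_union_of_disjoint]
    · congr 1
      ext j
      simp only [Finset.mem_union, Finset.mem_filter, Finset.mem_univ, true_and]
      cases u j <;> simp
    · rw [Finset.disjoint_filter]
      intro j _ hj hj'
      rw [hj.2.1] at hj'
      simp at hj'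
  obtain ⟨l, hl1, hl2, -⟩ := block_shuffle h s z _ u rfl (by omega)
  refine ⟨l, hl1, ?_⟩
  rw [hl2]
  exact seg_replicate _ _

lemma shuffle (h : IsPat χ t c) (u z : V n) (hy : yv t u = yv t z) : RQ χ m u z := by
  have key : ∀ T : Finset (Fin m), RQ χ #T u (fun j => if t j ∈ T then z j else u j) := by
    intro T
    induction T using Finset.induction_on with
    | empty => simpa using RQ.refl χ u
    | insert s T hs ih =>
      rw [Finset.card_insert_of_notMem hs]
      refine ih.trans ?_
      have h1 : yv t (fun j => if t j ∈ T then z j else u j) s = yv t z s := by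
        rw [← hy]
        unfold yv
        congr 1
        ext j
        simp only [Finset.mem_filter, Finset.mem_univ, true_and]
        constructor
        · rintro ⟨a, b⟩
          rw [a, if_neg hs] at b
          exact ⟨a, b⟩
        · rintro ⟨a, b⟩
          rw [a, if_neg hs]
          exact ⟨rfl, b⟩
      have h2 := block_shuffle' h s z _ h1
      convert h2 using 1
      funext j
      by_cases hj : t j = s
      · simp [hj]
      · simp [hj, Finset.mem_insert]
  have := key Finset.univ
  simpa using this

lemma yv_anti (t : Fin n → Fin m) (v : V n) : yv t (anti v) = fun s => bs t s - yv t v s := by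
  funext s
  have h1 : yv t (anti v) s + yv t v s = bs t s := by
    unfold yv bs
    rw [← Finset.card_union_of_disjoint]
    · congr 1
      ext j
      simp only [Finset.mem_union, Finset.mem_filter, Finset.mem_univ, true_and, anti]
      cases v j <;> simp
    · rw [Finset.disjoint_filter]
      intro j _ hj hj'
      have := hj.2
      unfold anti at this
      rw [hj'.2] at this
      simp at this
  omega

/-- The sign of the coordinate `j`. -/
def ep (v : V n) (j : Fin n) : ℤ := if v j = true then -1 else 1

lemma sum_ep (t : Fin n → Fin m) (v : V n) (s : Fin m) :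
    ∑ j, (if t j = s then ep v j else 0) = (bs t s : ℤ) - 2 * yv t v s := by
  unfold bs yv
  rw [Finset.card_filter, Finset.card_filter]
  push_cast
  rw [Finset.mul_sum, ← Finset.sum_sub_distrib]
  refine Finset.sum_congr rfl fun j _ => ?_
  unfold ep
  by_cases h1 : t j = s
  · by_cases h2 : v j = true
    · simp [h1, h2]
    · simp [h1, h2]
  · simp [h1]

/-- The coefficients of the signs. -/
def bet [NeZero L] (t : Fin n → Fin m) (c : (Fin m → ZMod L) → Fin m → Bool)
    (w : Fin m → ZMod L) (v : V n) (j : Fin n) : ℤ :=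
  if 2 * L ≤ bs t (t j) then
    (if cfz c (bs t) (ph L fun s => bs t s - yv t v s) (w - Pi.single (t j) 1) (t j) = true
      then 1 else 0)
    - (if cfz c (bs t) (ph L fun s => bs t s - yv t v s) w (t j) = true then 1 else 0)
  else 0

theorem vertex_bound [NeZero L] (h : IsPat χ t c) (v : V n) :
    (Fintype.card (Fin m → ZMod L) : ℤ) * (Pool.Agent.Hhelper43.Cube.m χ v : ℕ) ≤
      ∑ w : Fin m → ZMod L, |∑ j, bet t c w v j * ep v j|
        + Fintype.card (Fin m → ZMod L) * ((C0 m L : ℕ) + m : ℤ) := by
  obtain ⟨K, hK1, hK2⟩ := lattice_bound c (bs t) (yv t v) (yv_le t v)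
  obtain ⟨l, hl1, hl2⟩ := hK1
  obtain ⟨dl, hd1, hd2⟩ := lift_walk h hl1 v rfl
  rw [← yv_anti] at hd2
  have h1 : RQ χ K v (endp v dl) := ⟨dl, rfl, by rw [hd1]; exact hl2⟩
  have h2 := m_le_of_RQ (h1.trans (shuffle h _ _ hd2))
  have h3 : ((Pool.Agent.Hhelper43.Cube.m χ v : ℕ) : ℤ) ≤ (K : ℤ) + m := by exact_mod_cast h2
  have hQ : (0 : ℤ) ≤ Fintype.card (Fin m → ZMod L) := by positivity
  have h4 := mul_le_mul_of_nonneg_left h3 hQ
  have h5 : ∀ w : Fin m → ZMod L,
      ∑ s, (if 2 * L ≤ bs t s then (bs t s : ℤ) - 2 * yv t v s else 0) *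
          ((if cfz c (bs t) (ph L fun s => bs t s - yv t v s) (w - Pi.single s 1) s = true
              then 1 else 0)
            - (if cfz c (bs t) (ph L fun s => bs t s - yv t v s) w s = true then 1 else 0))
        = ∑ j, bet t c w v j * ep v j := by
    intro w
    have h6 : ∀ s, (if 2 * L ≤ bs t s then (bs t s : ℤ) - 2 * yv t v s else 0) *
          ((if cfz c (bs t) (ph L fun s => bs t s - yv t v s) (w - Pi.single s 1) s = true
              then 1 else 0)
            - (if cfz c (bs t) (ph L fun s => bs t s - yv t v s) w s = true then 1 else 0))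
        = ∑ j, (if t j = s then bet t c w v j * ep v j else 0) := by
      intro s
      rw [← sum_ep]
      by_cases hs : 2 * L ≤ bs t s
      · rw [if_pos hs, Finset.sum_mul]
        refine Finset.sum_congr rfl fun j _ => ?_
        by_cases hj : t j = s
        · rw [if_pos hj, if_pos hj]
          unfold bet
          rw [hj, if_pos hs]
          ring
        · rw [if_neg hj, if_neg hj, zero_mul]
      · rw [if_neg hs, zero_mul]
        refine (Finset.sum_eq_zero fun j _ => ?_).symm
        by_cases hj : t j = s
        · rw [if_pos hj]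
          unfold bet
          rw [hj, if_neg hs, zero_mul]
        · rw [if_neg hj]
    simp_rw [h6]
    rw [Finset.sum_comm]
    refine Finset.sum_congr rfl fun j _ => ?_
    simp
  simp_rw [h5] at hK2
  linarith

end col

/-! ### Contraction -/

/-- Change the coordinates in `D`. -/
def fl (v : V n) (D : Finset (Fin n)) : V n := fun j => if j ∈ D then !v j else v j

lemma fl_fl (v : V n) (D : Finset (Fin n)) : fl (fl v D) D = v := by
  funext j
  unfold fl
  split_ifs <;> simp

lemma sum_fl (D : V n → Finset (Fin n)) (hD : ∀ v, D (fl v (D v)) = D v) (F : V n → ℤ) :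
    ∑ v, F (fl v (D v)) = ∑ v, F v := by
  refine Finset.sum_bij' (fun v _ => fl v (D v)) (fun v _ => fl v (D v)) (by simp) (by simp)
    ?_ ?_ (fun v _ => rfl)
  · intro v _
    rw [hD, fl_fl]
  · intro v _
    rw [hD, fl_fl]

lemma ep_fl (v : V n) (D : Finset (Fin n)) (j : Fin n) :
    ep (fl v D) j = if j ∈ D then - ep v j else ep v j := by
  unfold ep fl
  by_cases h : j ∈ D
  · rw [if_pos h]
    cases v j <;> simp [h]
  · simp [h]

lemma contract (A : Finset (Fin n)) (β : V n → Fin n → ℤ)
    (hβ : ∀ v j, β v j = -1 ∨ β v j = 0 ∨ β v j = 1) (h0 : ∀ v j, j ∉ A → β v j = 0)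
    (hdep : ∀ v v' : V n, (∀ j, j ∉ A → v j = v' j) → β v = β v') :
    ∑ v : V n, |∑ j, β v j * ep v j| ≤ ∑ v : V n, |∑ j, ep v j| := by
  have step1 : 2 * ∑ v : V n, |∑ j, β v j * ep v j| ≤ 2 * ∑ v : V n, |∑ j ∈ A, ep v j| := by
    let D1 : V n → Finset (Fin n) := fun v => A.filter fun j => β v j = -1
    let D2 : V n → Finset (Fin n) := fun v => A.filter fun j => β v j ≠ 1
    have hinv : ∀ (v : V n) (D : Finset (Fin n)), D ⊆ A → β (fl v D) = β v := by
      intro v D hDA
      refine hdep _ _ fun j hj => ?_
      unfold fl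
      rw [if_neg fun h => hj (hDA h)]
    have h1 := sum_fl D1 (fun v => by
      simp only [D1]
      rw [hinv v _ (Finset.filter_subset _ _)]) (fun v => |∑ j ∈ A, ep v j|)
    have h2 := sum_fl D2 (fun v => by
      simp only [D2]
      rw [hinv v _ (Finset.filter_subset _ _)]) (fun v => |∑ j ∈ A, ep v j|)
    rw [two_mul (∑ v : V n, |∑ j ∈ A, ep v j|)]
    nth_rewrite 1 [← h1]
    nth_rewrite 1 [← h2]
    rw [← Finset.sum_add_distrib, Finset.mul_sum]
    refine Finset.sum_le_sum fun v _ => ?_
    have h3 : 2 * ∑ j, β v j * ep v j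
        = ∑ j ∈ A, ep (fl v (D1 v)) j + ∑ j ∈ A, ep (fl v (D2 v)) j := by
      rw [← Finset.sum_add_distrib, Finset.mul_sum,
        ← Finset.sum_subset (Finset.subset_univ A) (fun j _ hj => by rw [h0 v j hj]; simp)]
      refine Finset.sum_congr rfl fun j hj => ?_
      rw [ep_fl, ep_fl]
      simp only [D1, D2, Finset.mem_filter, hj, true_and]
      rcases hβ v j with h | h | h <;> rw [h] <;> simp <;> ring
    calc 2 * |∑ j, β v j * ep v j| = |2 * ∑ j, β v j * ep v j| := by
          rw [abs_mul]; norm_num
      _ ≤ _ := by rw [h3]; exact abs_add_le _ _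
  have step2 : 2 * ∑ v : V n, |∑ j ∈ A, ep v j| ≤ 2 * ∑ v : V n, |∑ j, ep v j| := by
    have h1 := sum_fl (fun _ : V n => Aᶜ) (fun v => rfl) (fun v => |∑ j, ep v j|)
    rw [two_mul (∑ v : V n, |∑ j, ep v j|)]
    nth_rewrite 2 [← h1]
    rw [← Finset.sum_add_distrib, Finset.mul_sum]
    refine Finset.sum_le_sum fun v _ => ?_
    have h3 : 2 * ∑ j ∈ A, ep v j = ∑ j, ep v j + ∑ j, ep (fl v Aᶜ) j := by
      rw [← Finset.sum_add_distrib, Finset.mul_sum]
      have h4 : ∀ j, ep v j + ep (fl v Aᶜ) j = if j ∈ A then 2 * ep v j else 0 := by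
        intro j
        rw [ep_fl]
        by_cases hj : j ∈ A
        · have hj' : j ∉ Aᶜ := by simp [hj]
          rw [if_neg hj', if_pos hj]
          ring
        · have hj' : j ∈ Aᶜ := by simp [hj]
          rw [if_pos hj', if_neg hj]
          ring
      simp_rw [h4]
      rw [Finset.sum_ite_mem, Finset.univ_inter]
    calc 2 * |∑ j ∈ A, ep v j| = |2 * ∑ j ∈ A, ep v j| := by
          rw [abs_mul]; norm_num
      _ ≤ _ := by rw [h3]; exact abs_add_le _ _
  linarith

lemma sum_ep_univ (v : V n) : ∑ j, ep v j = (n : ℤ) - 2 * wt v := by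
  have h1 : ∀ j : Fin n, ep v j = 1 - 2 * (if v j = true then 1 else 0) := by
    intro j
    unfold ep
    split_ifs <;> norm_num
  simp_rw [h1]
  rw [Finset.sum_sub_distrib, ← Finset.mul_sum]
  unfold wt
  rw [Finset.card_filter]
  simp

theorem sum_bound [NeZero L] {χ : Sym2 (V n) → Bool} {t : Fin n → Fin m}
    {c : (Fin m → ZMod L) → Fin m → Bool} (h : IsPat χ t c) :
    ∑ v : V n, ((Pool.Agent.Hhelper43.Cube.m χ v : ℕ) : ℤ)
      ≤ aSum n + 2 ^ n * ((C0 m L : ℕ) + m : ℤ) := by
  have hQ : (0 : ℤ) < Fintype.card (Fin m → ZMod L) := by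
    exact_mod_cast Fintype.card_pos
  refine le_of_mul_le_mul_left ?_ hQ
  rw [Finset.mul_sum]
  refine (Finset.sum_le_sum fun v _ => vertex_bound h v).trans ?_
  rw [Finset.sum_add_distrib, Finset.sum_comm]
  have h1 : ∀ w : Fin m → ZMod L, ∑ v : V n, |∑ j, bet t c w v j * ep v j| ≤ aSum n := by
    intro w
    have h2 := contract (univ.filter fun j => 2 * L ≤ bs t (t j)) (bet t c w) (fun v j => by
      unfold bet
      split_ifs <;> simp) (fun v j hj => by
      rw [Finset.mem_filter] at hj
      unfold bet
      exact if_neg fun h => hj ⟨Finset.mem_univ _, h⟩) (fun v v' hvv => by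
      funext j
      unfold bet
      have h3 : ∀ x : Fin m → ZMod L,
          cfz c (bs t) (ph L fun s => bs t s - yv t v s) x (t j)
            = cfz c (bs t) (ph L fun s => bs t s - yv t v' s) x (t j) := by
        intro x
        unfold cfz
        congr 1
        funext r
        split_ifs with hr
        · rfl
        · unfold ph
          have h4 : yv t v r = yv t v' r := by
            unfold yv
            congr 1
            ext i
            simp only [Finset.mem_filter, Finset.mem_univ, true_and]
            by_cases hi : t i = r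
            · have := hvv i (by
                rw [Finset.mem_filter]
                rintro ⟨-, h5⟩
                rw [hi] at h5
                exact hr h5)
              rw [this]
            · simp [hi]
          beta_reduce
          rw [h4]
      rw [h3, h3])
    refine h2.trans (le_of_eq ?_)
    unfold aSum
    exact Finset.sum_congr rfl fun v _ => by rw [sum_ep_univ]
  have h2 := Finset.sum_le_sum fun (w : Fin m → ZMod L) (_ : w ∈ univ) => h1 w
  rw [Finset.sum_const, Finset.card_univ, nsmul_eq_mul] at h2
  rw [Finset.sum_const, Finset.card_univ, nsmul_eq_mul]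
  have h3 : (Fintype.card (V n) : ℤ) = 2 ^ n := by
    simp [V]
  rw [h3]
  linarith

/-- The sharp bound for periodic colourings. -/
theorem A_periodic [NeZero L] {χ : Sym2 (V n) → Bool} (h : Periodic m L χ) :
    A χ ≤ (aSum n : ℝ) / 2 ^ n + ((C0 m L : ℕ) + m : ℝ) := by
  obtain ⟨t, c, hc⟩ := h
  have hp : IsPat χ t c := fun v i hi => by
    rw [flip_eq_update v i hi]
    exact hc v i hi
  have h1 := sum_bound hp
  have h2 : (∑ v : V n, ((Pool.Agent.Hhelper43.Cube.m χ v : ℕ) : ℝ))
      ≤ (aSum n : ℝ) + 2 ^ n * ((C0 m L : ℕ) + m : ℝ) := by exact_mod_cast h1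
  unfold A
  rw [div_le_iff₀ (by positivity), add_mul, div_mul_cancel₀ _ (by positivity)]
  linarith

end Pool.Agent.C14P
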