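import Mathlib
import Pool.Agent.C14P.Cube

set_option autoImplicit false

namespace Pool.Agent.C14P

open Finset
open Pool.Agent.Hhelper43.Cube

/-! ### The size of the main term -/

lemma central_le (h : ℕ) :
    (2 * h + 1) * (Nat.centralBinom h : ℝ) / 4 ^ h ≤ √(4 * (h + 1) / Real.pi) := by
  have hW := Real.Wallis.le_W h
  rw [Real.Wallis.W_eq_factorial_ratio] at hW
  have hpi := Real.pi_pos
  have hf : ((2 * h).factorial : ℝ) = (Nat.centralBinom h : ℝ) * (h.factorial : ℝ) ^ 2 := by
    have := Nat.centralBinom_eq_two_mul_choose h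
    have h2 := Nat.choose_mul_factorial_mul_factorial (show h ≤ 2 * h by omega)
    have e : 2 * h - h = h := by omega
    rw [e, ← this] at h2
    rw [← h2]
    push_cast
    ring
  rw [hf] at hW
  have hfac : (0 : ℝ) < (h.factorial : ℝ) := by exact_mod_cast Nat.factorial_pos h
  have hcb : (0 : ℝ) < (Nat.centralBinom h : ℝ) := by exact_mod_cast Nat.centralBinom_pos h
  have h4 : (0 : ℝ) < 4 ^ h := by positivity
  have h16 : (2 : ℝ) ^ (4 * h) = (4 ^ h) ^ 2 := by
    rw [← pow_mul, pow_mul]
    norm_num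
    rw [mul_comm, pow_mul]; norm_num
  rw [h16] at hW
  have e : (4 ^ h : ℝ) ^ 2 * (h.factorial : ℝ) ^ 4
      / (((Nat.centralBinom h : ℝ) * (h.factorial : ℝ) ^ 2) ^ 2 * (2 * h + 1))
      = (4 ^ h : ℝ) ^ 2 / ((Nat.centralBinom h : ℝ) ^ 2 * (2 * h + 1)) := by
    field_simp
  rw [e] at hW
  refine Real.le_sqrt_of_sq_le ?_
  rw [div_pow, div_le_div_iff₀ (by positivity) hpi]
  have hh : (0 : ℝ) < 2 * h + 1 := by positivity
  rw [div_mul_eq_mul_div, div_le_div_iff₀ (by positivity) (by positivity)] at hW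
  nlinarith

lemma aSum_le (n : ℕ) : (aSum n : ℝ) / 2 ^ n ≤ √(2 * n / Real.pi) + 2 := by
  have hpi := Real.pi_pos
  have h3 := Real.pi_gt_three
  have key : (aSum n : ℝ) / 2 ^ n ≤ √(2 * (n + 2) / Real.pi) := by
    rcases Nat.even_or_odd' n with ⟨h, rfl | rfl⟩
    · have h1 := central_le h
      have h2 : (aSum (2 * h) : ℝ) / 2 ^ (2 * h) = 2 * h * (Nat.centralBinom h : ℝ) / 4 ^ h := by
        rw [aSum_even, pow_mul]
        push_cast
        norm_num
      rw [h2]
      have e : (2 * (((2 * h : ℕ) : ℝ) + 2) / Real.pi) = 4 * (h + 1) / Real.pi := by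
        push_cast; ring
      rw [e]
      refine le_trans ?_ h1
      refine div_le_div_of_nonneg_right (mul_le_mul_of_nonneg_right (by linarith) ?_) (by positivity)
      positivity
    · have h1 := central_le h
      have e1 : aSum (2 * h + 1) = 2 * aSum (2 * h) + 2 * (Nat.centralBinom h : ℤ) := by
        rw [aSum_succ]
        congr 2
        rw [Nat.centralBinom_eq_two_mul_choose, ← sum_ite_half (2 * h) h]
        refine Finset.sum_congr rfl fun v _ => ?_
        congr 1
        exact propext ⟨fun h => by omega, fun h => by omega⟩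
      have h2 : (aSum (2 * h + 1) : ℝ) / 2 ^ (2 * h + 1)
          = (2 * h + 1) * (Nat.centralBinom h : ℝ) / 4 ^ h := by
        rw [e1, aSum_even, pow_succ, pow_mul]
        push_cast
        norm_num
        field_simp
      rw [h2]
      refine h1.trans (Real.sqrt_le_sqrt ?_)
      refine div_le_div_of_nonneg_right ?_ hpi.le
      push_cast
      linarith
  refine key.trans ?_
  refine Real.sqrt_le_iff.mpr ⟨by positivity, ?_⟩
  have h4 : 0 ≤ √(2 * n / Real.pi) := Real.sqrt_nonneg _
  have h5 : √(2 * n / Real.pi) ^ 2 = 2 * n / Real.pi := Real.sq_sqrt (by positivity)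
  have h6 : 2 * ((n : ℝ) + 2) / Real.pi = 2 * n / Real.pi + 4 / Real.pi := by ring
  have h7 : 4 / Real.pi ≤ 4 := by
    rw [div_le_iff₀ hpi]; nlinarith
  nlinarith

/-! ### The layer colouring -/

/-- The layer colouring: the edges between two consecutive layers get the same colour, and the
colours of the layers alternate. -/
def lay (n : ℕ) : Sym2 (V n) → Bool :=
  Sym2.lift ⟨fun x y => decide (Even (min (wt x) (wt y))),
    fun _ _ => congrArg (fun k => decide (Even k)) (min_comm _ _)⟩

lemma lay_mk {n : ℕ} (x y : V n) : lay n s(x, y) = decide (Even (min (wt x) (wt y))) := rfl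

lemma wt_adj {n : ℕ} (x y : V n) (h : (Q n).Adj x y) : wt x + 1 = wt y ∨ wt y + 1 = wt x := by
  obtain ⟨d, rfl⟩ := adj_iff x y h
  rcases wt_flip x d with h | h <;> omega

lemma walk_lay {n : ℕ} {u v : V n} (p : (Q n).Walk u v) (a : V n) (hau : (Q n).Adj a u) :
    ∃ l : ℕ, (l ≤ wt v ∧ wt v ≤ l + 1) ∧
      |((min (wt a) (wt u) : ℕ) : ℤ) - l|
        ≤ (changes (lay n s(a, u) :: p.edges.map (lay n)) : ℤ) := by
  induction p generalizing a with
  | nil =>
    rename_i u
    have hn := wt_adj a u hau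
    refine ⟨min (wt a) (wt u), by omega, ?_⟩
    simp [changes]
  | cons hub p ih =>
    rename_i u b v
    obtain ⟨l, h1, h2⟩ := ih u hub
    refine ⟨l, h1, ?_⟩
    rw [SimpleGraph.Walk.edges_cons, List.map_cons, changes]
    have e1 := wt_adj a u hau
    have e2 := wt_adj u b hub
    rw [lay_mk, lay_mk]
    rw [lay_mk] at h2
    obtain ⟨x, hx⟩ : ∃ x, x = min (wt a) (wt u) := ⟨_, rfl⟩
    obtain ⟨y, hy⟩ : ∃ y, y = min (wt u) (wt b) := ⟨_, rfl⟩
    have hxy : x = y ∨ x + 1 = y ∨ y + 1 = x := by omega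
    rw [← hx, ← hy]
    rw [← hy] at h2
    generalize changes (decide (Even y) :: List.map (lay n) p.edges) = K at *
    have key : |(x : ℤ) - y| ≤
        (if decide (Even x) = decide (Even y) then 0 else 1 : ℕ) := by
      by_cases hc : x = y
      · subst hc
        simp
      · have hne : ¬ (decide (Even x) = decide (Even y)) := by
          rw [decide_eq_decide]
          intro hiff
          rw [Nat.even_iff, Nat.even_iff] at hiff
          omega
        rw [if_neg hne]
        push_cast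
        rw [abs_le]
        constructor <;> omega
    have t1 := abs_sub_le (x : ℤ) y l
    push_cast at key ⊢
    linarith

lemma m_lay {n : ℕ} (v : V n) :
    |(n : ℤ) - 2 * wt v| - 1 + (if 2 * wt v = n then 1 else 0)
      ≤ (Pool.Agent.Hhelper43.Cube.m (lay n) v : ℤ) := by
  by_cases h0 : 2 * wt v = n
  · rw [if_pos h0]
    have : (n : ℤ) - 2 * wt v = 0 := by omega
    rw [this]
    simp
  rw [if_neg h0, add_zero]
  have hne : {k : ℕ | ∃ p : (Q n).Walk v (anti v), p.IsPath ∧
      changes (p.edges.map (lay n)) = k}.Nonempty := by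
    obtain ⟨p, hp, -, -⟩ := exists_walk (lay n) (univ : Finset (Fin n)).toList
      (Finset.nodup_toList _) v (anti v)
      (endp_univ _ (Finset.nodup_toList _) (Finset.toList_toFinset _) v).symm
    exact ⟨_, p, hp, rfl⟩
  obtain ⟨p, hp, hm⟩ := Nat.sInf_mem hne
  have hm' : changes (p.edges.map (lay n)) = Pool.Agent.Hhelper43.Cube.m (lay n) v := hm
  rw [← hm']
  have hw1 := wt_anti v
  clear hm hm' hne hp
  have gen : ∀ (w : V n) (q : (Q n).Walk v w), wt w + wt v = n →
      |(n : ℤ) - 2 * wt v| - 1 ≤ (changes (q.edges.map (lay n)) : ℤ) := by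
    intro w q hw
    cases q with
    | nil => omega
    | cons hvb q =>
      rename_i b
      obtain ⟨l, h1, h2⟩ := walk_lay q v hvb
      have e1 := wt_adj v b hvb
      rw [SimpleGraph.Walk.edges_cons, List.map_cons]
      refine le_trans ?_ h2
      obtain ⟨x, hx⟩ : ∃ x, x = min (wt v) (wt b) := ⟨_, rfl⟩
      rw [← hx]
      have a1 := le_abs_self ((x : ℤ) - l)
      have a2 := neg_abs_le ((x : ℤ) - l)
      rcases le_total (2 * wt v) n with g | g
      · rw [abs_of_nonneg (by omega)]
        omega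
      · rw [abs_of_nonpos (by omega)]
        omega
  exact gen _ p hw1

lemma A_lay (n : ℕ) : √(2 * n / Real.pi) - 1 ≤ A (lay n) := by
  have hs := Finset.sum_le_sum (s := (univ : Finset (V n))) (fun v _ => m_lay v)
  rw [Finset.sum_add_distrib, Finset.sum_sub_distrib] at hs
  have hc : ∑ _v : V n, (1 : ℤ) = 2 ^ n := by simp
  rw [hc] at hs
  change aSum n - 2 ^ n + ∑ v : V n, (if 2 * wt v = n then (1 : ℤ) else 0)
    ≤ ∑ v : V n, (Pool.Agent.Hhelper43.Cube.m (lay n) v : ℤ) at hs
  have hpi := Real.pi_pos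
  unfold A
  rcases Nat.even_or_odd' n with ⟨h, rfl | rfl⟩
  · have h2 : ∑ v : V (2 * h), (if 2 * wt v = 2 * h then (1 : ℤ) else 0)
        = (Nat.centralBinom h : ℤ) := by
      rw [Nat.centralBinom_eq_two_mul_choose, ← sum_ite_half (2 * h) h]
      refine Finset.sum_congr rfl fun v _ => ?_
      congr 1
      exact propext ⟨fun h => by omega, fun h => by omega⟩
    rw [h2, aSum_even] at hs
    have hs' : (2 * h + 1) * (Nat.centralBinom h : ℝ) - 2 ^ (2 * h)
        ≤ ∑ v : V (2 * h), (Pool.Agent.Hhelper43.Cube.m (lay (2 * h)) v : ℝ) := by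
      have : (2 * h + 1) * (Nat.centralBinom h : ℤ) - 2 ^ (2 * h)
        ≤ ∑ v : V (2 * h), (Pool.Agent.Hhelper43.Cube.m (lay (2 * h)) v : ℤ) := by linarith
      exact_mod_cast this
    have h4 : (0 : ℝ) < 2 ^ (2 * h) := by positivity
    have h5 : √(2 * ((2 * h : ℕ) : ℝ) / Real.pi) ≤ √(2 * (2 * h + 1) / Real.pi) := by
      refine Real.sqrt_le_sqrt (div_le_div_of_nonneg_right ?_ hpi.le)
      push_cast
      linarith
    have h6 := central_ge h
    have h7 : (2 * h + 1) * (Nat.centralBinom h : ℝ) / 4 ^ h - 1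
        = ((2 * h + 1) * (Nat.centralBinom h : ℝ) - 2 ^ (2 * h)) / 2 ^ (2 * h) := by
      rw [sub_div, div_self h4.ne', pow_mul]
      norm_num
    have h8 := div_le_div_of_nonneg_right hs' h4.le
    rw [← h7] at h8
    linarith
  · have h2 : 0 ≤ ∑ v : V (2 * h + 1), (if 2 * wt v = 2 * h + 1 then (1 : ℤ) else 0) :=
      Finset.sum_nonneg fun v _ => by split_ifs <;> norm_num
    have e1 : aSum (2 * h + 1) = 2 * aSum (2 * h) + 2 * (Nat.centralBinom h : ℤ) := by
      rw [aSum_succ]
      congr 2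
      rw [Nat.centralBinom_eq_two_mul_choose, ← sum_ite_half (2 * h) h]
      refine Finset.sum_congr rfl fun v _ => ?_
      congr 1
      exact propext ⟨fun h => by omega, fun h => by omega⟩
    rw [e1, aSum_even] at hs
    have hs' : 2 * (2 * h + 1) * (Nat.centralBinom h : ℝ) - 2 ^ (2 * h + 1)
        ≤ ∑ v : V (2 * h + 1), (Pool.Agent.Hhelper43.Cube.m (lay (2 * h + 1)) v : ℝ) := by
      have : 2 * (2 * h + 1) * (Nat.centralBinom h : ℤ) - 2 ^ (2 * h + 1)
        ≤ ∑ v : V (2 * h + 1), (Pool.Agent.Hhelper43.Cube.m (lay (2 * h + 1)) v : ℤ) := by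
        linarith
      exact_mod_cast this
    have h4 : (0 : ℝ) < 2 ^ (2 * h + 1) := by positivity
    have h6 := central_ge h
    have h7 : (2 * h + 1) * (Nat.centralBinom h : ℝ) / 4 ^ h - 1
        = (2 * (2 * h + 1) * (Nat.centralBinom h : ℝ) - 2 ^ (2 * h + 1)) / 2 ^ (2 * h + 1) := by
      rw [sub_div, div_self h4.ne', pow_succ, pow_mul]
      norm_num
      field_simp
    have h8 := div_le_div_of_nonneg_right hs' h4.le
    rw [← h7] at h8
    have h9 : √(2 * ((2 * h + 1 : ℕ) : ℝ) / Real.pi) = √(2 * (2 * h + 1) / Real.pi) := by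
      push_cast
      rfl
    rw [h9]
    linarith

lemma periodic_lay (m L n : ℕ) (hm : 0 < m) (hL : Even L) : Periodic m L (lay n) := by
  have h2 : 2 ∣ L := hL.two_dvd
  refine ⟨fun _ => ⟨0, hm⟩,
    fun w _ => decide (ZMod.castHom h2 (ZMod 2) (w ⟨0, hm⟩) = 0), fun v i hi => ?_⟩
  rw [← flip_eq_update v i hi, lay_mk]
  have h1 := wt_flip v i
  rw [hi] at h1
  simp only [Bool.false_eq_true, false_and, false_or, true_and] at h1
  rw [h1, min_eq_left (Nat.le_succ _)]
  beta_reduce
  rw [map_natCast, decide_eq_decide, ZMod.natCast_eq_zero_iff, even_iff_two_dvd]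
  unfold wt
  simp only [true_and]

end Pool.Agent.C14P
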